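import Mathlib

/-!
# MP_bcbcf8_co : removable edges of bipartite cubic graphs
-/

namespace Pool.Agent.Results.MP_bcbcf8_co.BipartiteCubic

open Finset

variable {X Y : Type} [Fintype X] [Fintype Y] [DecidableEq X] [DecidableEq Y]

/-- The bipartite graph with parts `X`, `Y` and edge set `E ⊆ X × Y` is cubic. -/
def IsCubic (E : Finset (X × Y)) : Prop :=
  (∀ x, (E.filter fun p => p.1 = x).card = 3) ∧ (∀ y, (E.filter fun p => p.2 = y).card = 3)

/-- The edge cut of the vertex set `A ∪ B`, `A ⊆ X`, `B ⊆ Y`: the edges with exactly one end in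
`A ∪ B`. -/
def cut (E : Finset (X × Y)) (A : Finset X) (B : Finset Y) : Finset (X × Y) :=
  E.filter fun p => ¬ (p.1 ∈ A ↔ p.2 ∈ B)

/-- `c` is a 3-edge colouring of the cubic graph homeomorphic to `G - e`: the edges other than `e`
are coloured, two different edges with a common end have different colours if that end is not an
end of `e`, and the same colour if it is an end of `e` (there the two edges form one edge after the
end is suppressed). -/
def IsColouringMinus (E : Finset (X × Y)) (e : X × Y) (c : X × Y → Fin 3) : Prop :=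
  (∀ p ∈ E, ∀ q ∈ E, p ≠ e → q ≠ e → p ≠ q → p.1 = q.1 →
    ((p.1 = e.1 → c p = c q) ∧ (p.1 ≠ e.1 → c p ≠ c q))) ∧
  (∀ p ∈ E, ∀ q ∈ E, p ≠ e → q ≠ e → p ≠ q → p.2 = q.2 →
    ((p.2 = e.2 → c p = c q) ∧ (p.2 ≠ e.2 → c p ≠ c q)))

lemma card_fst {E : Finset (X × Y)} {d : ℕ} (A : Finset X)
    (h : ∀ x ∈ A, (E.filter fun p => p.1 = x).card = d) :
    (E.filter fun p => p.1 ∈ A).card = d * A.card := by
  rw [Finset.card_eq_sum_card_fiberwise (f := Prod.fst) (t := A) (fun p hp => by
    simpa using (mem_filter.1 hp).2)]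
  rw [Finset.sum_congr rfl (g := fun _ => d), Finset.sum_const, smul_eq_mul, mul_comm]
  intro x hx
  rw [← h x hx]
  congr 1
  ext p
  simp only [mem_filter]
  constructor
  · rintro ⟨⟨h1, h2⟩, h3⟩; exact ⟨h1, h3⟩
  · rintro ⟨h1, h3⟩; exact ⟨⟨h1, by rw [h3]; exact hx⟩, h3⟩

lemma card_snd {E : Finset (X × Y)} {d : ℕ} (B : Finset Y)
    (h : ∀ y ∈ B, (E.filter fun p => p.2 = y).card = d) :
    (E.filter fun p => p.2 ∈ B).card = d * B.card := by
  rw [Finset.card_eq_sum_card_fiberwise (f := Prod.snd) (t := B) (fun p hp => by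
    simpa using (mem_filter.1 hp).2)]
  rw [Finset.sum_congr rfl (g := fun _ => d), Finset.sum_const, smul_eq_mul, mul_comm]
  intro x hx
  rw [← h x hx]
  congr 1
  ext p
  simp only [mem_filter]
  constructor
  · rintro ⟨⟨h1, h2⟩, h3⟩; exact ⟨h1, h3⟩
  · rintro ⟨h1, h3⟩; exact ⟨⟨h1, by rw [h3]; exact hx⟩, h3⟩

lemma cut_card (E : Finset (X × Y)) (hE : IsCubic E) (A : Finset X) (B : Finset Y) :
    (cut E A B).card + 3 * A.card =
      2 * (E.filter fun p => p.1 ∈ A ∧ p.2 ∉ B).card + 3 * B.card := by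
  have h1 := card_fst A (fun x _ => hE.1 x)
  have h2 := card_snd B (fun y _ => hE.2 y)
  rw [← h1, ← h2]
  unfold cut
  simp only [Finset.card_filter]
  rw [Finset.mul_sum, ← Finset.sum_add_distrib, ← Finset.sum_add_distrib]
  apply Finset.sum_congr rfl
  intro p _
  by_cases hA : p.1 ∈ A <;> by_cases hB : p.2 ∈ B <;> simp [hA, hB]

lemma nbr_fst {E : Finset (X × Y)} (hE : IsCubic E) {x0 : X} {y0 : Y} (he : (x0, y0) ∈ E) :
    ∃ y1 y2, y1 ≠ y2 ∧ y1 ≠ y0 ∧ y2 ≠ y0 ∧ ∀ y, (x0, y) ∈ E ↔ (y = y0 ∨ y = y1 ∨ y = y2) := by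
  have h1 : ((E.filter fun p => p.1 = x0).erase (x0, y0)).card = 2 := by
    rw [Finset.card_erase_of_mem (by simp [he]), hE.1 x0]
  obtain ⟨p, q, hpq, h2⟩ := Finset.card_eq_two.1 h1
  have hp : p ∈ (E.filter fun p => p.1 = x0).erase (x0, y0) := by rw [h2]; simp
  have hq : q ∈ (E.filter fun p => p.1 = x0).erase (x0, y0) := by rw [h2]; simp
  obtain ⟨px, py⟩ := p
  obtain ⟨qx, qy⟩ := q
  simp only [mem_erase, mem_filter, ne_eq, Prod.mk.injEq, not_and] at hp hq
  obtain ⟨hp1, hp2, rfl⟩ := hp
  obtain ⟨hq1, hq2, rfl⟩ := hq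
  refine ⟨py, qy, fun h => hpq (by rw [h]), hp1 rfl, hq1 rfl, ?_⟩
  intro y
  constructor
  · intro hy
    by_cases hy0 : y = y0
    · left; exact hy0
    · have : (qx, y) ∈ (E.filter fun p => p.1 = qx).erase (qx, y0) := by
        simp [hy, hy0]
      rw [h2] at this
      simpa using Or.inr (a := y = y0) (by simpa using this)
  · rintro (rfl | rfl | rfl) <;> assumption

lemma nbr_snd {E : Finset (X × Y)} (hE : IsCubic E) {x0 : X} {y0 : Y} (he : (x0, y0) ∈ E) :
    ∃ x1 x2, x1 ≠ x2 ∧ x1 ≠ x0 ∧ x2 ≠ x0 ∧ ∀ x, (x, y0) ∈ E ↔ (x = x0 ∨ x = x1 ∨ x = x2) := by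
  have h1 : ((E.filter fun p => p.2 = y0).erase (x0, y0)).card = 2 := by
    rw [Finset.card_erase_of_mem (by simp [he]), hE.2 y0]
  obtain ⟨p, q, hpq, h2⟩ := Finset.card_eq_two.1 h1
  have hp : p ∈ (E.filter fun p => p.2 = y0).erase (x0, y0) := by rw [h2]; simp
  have hq : q ∈ (E.filter fun p => p.2 = y0).erase (x0, y0) := by rw [h2]; simp
  obtain ⟨px, py⟩ := p
  obtain ⟨qx, qy⟩ := q
  simp only [mem_erase, mem_filter, ne_eq, Prod.mk.injEq] at hp hq
  obtain ⟨hp1, hp2, rfl⟩ := hp
  obtain ⟨hq1, hq2, rfl⟩ := hq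
  refine ⟨px, qx, fun h => hpq (by rw [h]), fun h => hp1 ⟨h, rfl⟩, fun h => hq1 ⟨h, rfl⟩, ?_⟩
  intro x
  constructor
  · intro hx
    by_cases hx0 : x = x0
    · left; exact hx0
    · have : (x, qy) ∈ (E.filter fun p => p.2 = qy).erase (x0, qy) := by
        simp [hx, hx0]
      rw [h2] at this
      simpa using Or.inr (a := x = x0) (by simpa using this)
  · rintro (rfl | rfl | rfl) <;> assumption

lemma card_eq (E : Finset (X × Y)) (hE : IsCubic E) : Fintype.card X = Fintype.card Y := by
  have h1 := card_fst (univ : Finset X) (fun x _ => hE.1 x)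
  have h2 := card_snd (univ : Finset Y) (fun y _ => hE.2 y)
  simp only [mem_univ, Finset.filter_true, Finset.card_univ] at h1 h2
  omega


/-- Step 1: a map `m` giving the third colour class. -/
lemma step_one (E : Finset (X × Y)) (hE : IsCubic E) (x0 : X) (y0 : Y) (he : (x0, y0) ∈ E)
    (hcut : ∀ A B, (x0, y0) ∈ cut E A B → (cut E A B).card ≠ 2) :
    ∃ m : X → Y, (∀ x, x ≠ x0 → (x, m x) ∈ E) ∧ (∀ x, (x, y0) ∈ E → x ≠ x0 → m x = y0) ∧
      (∀ y, y ≠ y0 → ∃ z, (z, y) ∈ E ∧ (z = x0 ∨ y = m z) ∧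
        ∀ x, (x, y) ∈ E → (x = x0 ∨ y = m x) → x = z) := by
  classical
  obtain ⟨y1, y2, hy12, hy10, hy20, hx0⟩ := nbr_fst hE he
  obtain ⟨x1, x2, hx12, hx10, hx20, hy0⟩ := nbr_snd hE he
  let ι := {x : X // x ≠ x0 ∧ x ≠ x1 ∧ x ≠ x2}
  let t : ι → Finset Y := fun x => univ.filter fun y => (x.1, y) ∈ E ∧ y ≠ y1 ∧ y ≠ y2
  have ht : ∀ (x : ι) (y : Y), y ∈ t x ↔ ((x.1, y) ∈ E ∧ y ≠ y1 ∧ y ≠ y2) := by
    intro x y; simp [t]
  have hty0 : ∀ (x : ι) (y : Y), y ∈ t x → y ≠ y0 := by
    intro x y hy h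
    rw [ht, h] at hy
    rcases (hy0 x.1).1 hy.1 with h | h | h
    · exact x.2.1 h
    · exact x.2.2.1 h
    · exact x.2.2.2 h
  have hall : ∀ s : Finset ι, s.card ≤ (s.biUnion t).card := by
    intro s
    by_contra hlt
    push Not at hlt
    set A : Finset X := s.image Subtype.val with hA
    have cA : A.card = s.card := Finset.card_image_of_injective _ Subtype.val_injective
    set B : Finset Y := s.biUnion t with hB
    have x0A : x0 ∉ A := by
      rw [hA, mem_image]
      rintro ⟨x, _, hx⟩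
      exact x.2.1 hx
    have y2B : y2 ∉ B := by
      rw [hB, mem_biUnion]
      rintro ⟨x, _, hx⟩
      exact ((ht x _).1 hx).2.2 rfl
    have y1B : y1 ∉ insert y2 B := by
      rw [mem_insert, not_or]
      refine ⟨hy12, ?_⟩
      rw [hB, mem_biUnion]
      rintro ⟨x, _, hx⟩
      exact ((ht x _).1 hx).2.1 rfl
    have y0B : y0 ∉ insert y1 (insert y2 B) := by
      rw [mem_insert, mem_insert, not_or, not_or]
      refine ⟨hy10.symm, hy20.symm, ?_⟩
      rw [hB, mem_biUnion]
      rintro ⟨x, _, hx⟩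
      exact hty0 x _ hx rfl
    have hone : (E.filter fun p => p.1 ∈ insert x0 A ∧ p.2 ∉ insert y1 (insert y2 B)) =
        {(x0, y0)} := by
      ext ⟨x, y⟩
      simp only [mem_filter, mem_singleton, Prod.mk.injEq]
      constructor
      · rintro ⟨h1, h2, h3⟩
        rw [mem_insert, mem_insert, not_or, not_or] at h3
        rw [mem_insert] at h2
        rcases h2 with rfl | h2
        · refine ⟨rfl, ?_⟩
          rcases (hx0 y).1 h1 with h | h | h
          · exact h
          · exact absurd h h3.1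
          · exact absurd h h3.2.1
        · exfalso
          rw [hA, mem_image] at h2
          obtain ⟨z, hz, rfl⟩ := h2
          apply h3.2.2
          rw [hB, mem_biUnion]
          exact ⟨z, hz, (ht z y).2 ⟨h1, h3.1, h3.2.1⟩⟩
      · rintro ⟨rfl, rfl⟩
        exact ⟨he, mem_insert_self _ _, y0B⟩
    have hc := cut_card E hE (insert x0 A) (insert y1 (insert y2 B))
    rw [hone, Finset.card_singleton, Finset.card_insert_of_notMem x0A,
      Finset.card_insert_of_notMem y1B, Finset.card_insert_of_notMem y2B, cA] at hc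
    have hmem : (x0, y0) ∈ cut E (insert x0 A) (insert y1 (insert y2 B)) := by
      unfold cut
      rw [mem_filter]
      refine ⟨he, ?_⟩
      simp only
      intro h
      exact y0B (h.1 (mem_insert_self _ _))
    have := hcut _ _ hmem
    omega
  obtain ⟨f, finj, hf⟩ := (Finset.all_card_le_biUnion_card_iff_exists_injective t).1 hall
  let m : X → Y := fun x => if h : x ≠ x0 ∧ x ≠ x1 ∧ x ≠ x2 then f ⟨x, h⟩ else y0
  have m1 : ∀ x (h : x ≠ x0 ∧ x ≠ x1 ∧ x ≠ x2), m x = f ⟨x, h⟩ := by
    intro x h; simp only [m]; rw [dif_pos h]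
  have m2 : ∀ x, ¬ (x ≠ x0 ∧ x ≠ x1 ∧ x ≠ x2) → m x = y0 := by
    intro x h; simp only [m]; rw [dif_neg h]
  have fE : ∀ x : ι, (x.1, f x) ∈ E ∧ f x ≠ y1 ∧ f x ≠ y2 := fun x => (ht x _).1 (hf x)
  -- surjectivity of f onto the non-special vertices
  have fsurj : ∀ y, y ≠ y0 → y ≠ y1 → y ≠ y2 → ∃ x : ι, f x = y := by
    have hcard : (univ.image f).card = Fintype.card X - 3 := by
      rw [Finset.card_image_of_injective _ finj, Finset.card_univ]
      have e1 : Fintype.card ι = (univ.filter fun x : X => x ≠ x0 ∧ x ≠ x1 ∧ x ≠ x2).card :=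
        Fintype.card_subtype _
      have e2 : (univ.filter fun x : X => x ≠ x0 ∧ x ≠ x1 ∧ x ≠ x2) = univ \ {x0, x1, x2} := by
        ext x; simp
      have e3 : ({x0, x1, x2} : Finset X).card = 3 :=
        Finset.card_eq_three.2 ⟨x0, x1, x2, hx10.symm, hx20.symm, hx12, rfl⟩
      rw [e1, e2, Finset.card_sdiff_of_subset (Finset.subset_univ _), e3, Finset.card_univ]
    have hsub : univ.image f ⊆ univ \ {y0, y1, y2} := by
      intro y hy
      rw [mem_image] at hy
      obtain ⟨x, _, rfl⟩ := hy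
      simp only [mem_sdiff, mem_univ, true_and, mem_insert, mem_singleton, not_or]
      exact ⟨hty0 x _ (hf x), (fE x).2.1, (fE x).2.2⟩
    have e3 : ({y0, y1, y2} : Finset Y).card = 3 :=
      Finset.card_eq_three.2 ⟨y0, y1, y2, hy10.symm, hy20.symm, hy12, rfl⟩
    have heq : univ.image f = univ \ {y0, y1, y2} := by
      apply Finset.eq_of_subset_of_card_le hsub
      rw [hcard, Finset.card_sdiff_of_subset (Finset.subset_univ _), e3, Finset.card_univ,
        card_eq E hE]
    intro y h0 h1 h2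
    have : y ∈ univ.image f := by
      rw [heq]; simp [h0, h1, h2]
    rw [mem_image] at this
    obtain ⟨x, _, hx⟩ := this
    exact ⟨x, hx⟩
  refine ⟨m, ?_, ?_, ?_⟩
  · intro x hx
    by_cases h : x ≠ x0 ∧ x ≠ x1 ∧ x ≠ x2
    · rw [m1 x h]; exact (fE ⟨x, h⟩).1
    · rw [m2 x h]
      rw [hy0]
      by_contra h'
      push Not at h'
      exact h h'
  · intro x hx hx'
    apply m2
    intro h
    rcases (hy0 x).1 hx with h' | h' | h'
    · exact h.1 h'
    · exact h.2.1 h'
    · exact h.2.2 h'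
  · intro y hy
    by_cases hy12' : y = y1 ∨ y = y2
    · refine ⟨x0, (hx0 y).2 (Or.inr hy12'), Or.inl rfl, ?_⟩
      intro x hx hx'
      rcases hx' with h | h
      · exact h
      · exfalso
        by_cases h' : x ≠ x0 ∧ x ≠ x1 ∧ x ≠ x2
        · rw [m1 x h'] at h
          rcases hy12' with h2 | h2
          · exact (fE ⟨x, h'⟩).2.1 (h.symm.trans h2)
          · exact (fE ⟨x, h'⟩).2.2 (h.symm.trans h2)
        · rw [m2 x h'] at h
          exact hy h
    · push Not at hy12'
      obtain ⟨z, hz⟩ := fsurj y hy hy12'.1 hy12'.2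
      refine ⟨z.1, ?_, Or.inr ?_, ?_⟩
      · rw [← hz]; exact (fE z).1
      · rw [m1 z.1 z.2]; exact hz.symm
      · intro x hx hx'
        rcases hx' with h | h
        · exfalso
          rw [h] at hx
          rcases (hx0 y).1 hx with h' | h' | h'
          · exact hy h'
          · exact hy12'.1 h'
          · exact hy12'.2 h'
        · by_cases h' : x ≠ x0 ∧ x ≠ x1 ∧ x ≠ x2
          · rw [m1 x h'] at h
            have := finj (h.symm.trans hz.symm)
            exact congrArg Subtype.val this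
          · rw [m2 x h'] at h
            exact absurd h hy

/-- An edge of a simple bipartite cubic graph contained in no 2-edge-cut is removable. -/
theorem removable (E : Finset (X × Y)) (hE : IsCubic E) (e : X × Y) (he : e ∈ E)
    (hcut : ∀ A B, e ∈ cut E A B → (cut E A B).card ≠ 2) :
    ∃ c : X × Y → Fin 3, IsColouringMinus E e c := by
  classical
  obtain ⟨x0, y0⟩ := e
  obtain ⟨m, hm1, hm2, hm3⟩ := step_one E hE x0 y0 he hcut
  set R : Finset (X × Y) := E.filter fun p => p.1 ≠ x0 ∧ p.2 ≠ m p.1 with hR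
  have memR : ∀ x y, (x, y) ∈ R ↔ ((x, y) ∈ E ∧ x ≠ x0 ∧ y ≠ m x) := by
    intro x y; simp [hR]
  have degX : ∀ x, x ≠ x0 → (R.filter fun p => p.1 = x).card = 2 := by
    intro x hx
    have : (R.filter fun p => p.1 = x) = (E.filter fun p => p.1 = x).erase (x, m x) := by
      ext ⟨a, b⟩
      simp only [mem_filter, mem_erase, memR, ne_eq, Prod.mk.injEq, not_and]
      constructor
      · rintro ⟨⟨h1, h2, h3⟩, h4⟩
        subst h4
        exact ⟨fun _ => h3, h1, rfl⟩
      · rintro ⟨h1, h2, h3⟩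
        subst h3
        exact ⟨⟨h2, hx, h1 rfl⟩, rfl⟩
    rw [this, Finset.card_erase_of_mem (by simp [hm1 x hx]), hE.1 x]
  have degY : ∀ y, y ≠ y0 → (R.filter fun p => p.2 = y).card = 2 := by
    intro y hy
    obtain ⟨z, hz1, hz2, hz3⟩ := hm3 y hy
    have : (R.filter fun p => p.2 = y) = (E.filter fun p => p.2 = y).erase (z, y) := by
      ext ⟨a, b⟩
      simp only [mem_filter, mem_erase, memR, ne_eq, Prod.mk.injEq, not_and]
      constructor
      · rintro ⟨⟨h1, h2, h3⟩, h4⟩
        subst h4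
        refine ⟨?_, h1, rfl⟩
        intro h5
        exfalso
        subst h5
        rcases hz2 with h | h
        · exact h2 h
        · exact h3 h
      · rintro ⟨h1, h2, h3⟩
        subst h3
        refine ⟨⟨h2, ?_, ?_⟩, rfl⟩
        · intro h
          exact h1 (hz3 a h2 (Or.inl h)) rfl
        · intro h
          exact h1 (hz3 a h2 (Or.inr h)) rfl
    rw [this, Finset.card_erase_of_mem (by simp [hz1]), hE.2 y]
  have hRy0 : ∀ x, (x, y0) ∉ R := by
    intro x hx
    rw [memR] at hx
    exact hx.2.2 (hm2 x hx.1 hx.2.1).symm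
  -- Hall for R
  let ι := {x : X // x ≠ x0}
  let t : ι → Finset Y := fun x => univ.filter fun y => (x.1, y) ∈ R
  have ht : ∀ (x : ι) (y : Y), y ∈ t x ↔ (x.1, y) ∈ R := by
    intro x y; simp [t]
  have hall : ∀ s : Finset ι, s.card ≤ (s.biUnion t).card := by
    intro s
    set A : Finset X := s.image Subtype.val with hA
    have cA : A.card = s.card := Finset.card_image_of_injective _ Subtype.val_injective
    set B : Finset Y := s.biUnion t with hB
    have h1 := card_fst (E := R) A (d := 2) (by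
      intro x hx
      apply degX
      rw [hA, mem_image] at hx
      obtain ⟨z, _, rfl⟩ := hx
      exact z.2)
    have h2 := card_snd (E := R) B (d := 2) (by
      intro y hy
      apply degY
      rintro rfl
      rw [hB, mem_biUnion] at hy
      obtain ⟨z, _, hz⟩ := hy
      exact hRy0 _ ((ht z _).1 hz))
    have h3 : (R.filter fun p => p.1 ∈ A) ⊆ (R.filter fun p => p.2 ∈ B) := by
      rintro ⟨x, y⟩ hp
      rw [mem_filter] at hp ⊢
      refine ⟨hp.1, ?_⟩
      obtain ⟨hp1, hp2⟩ := hp
      simp only at hp2 ⊢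
      rw [hA, mem_image] at hp2
      obtain ⟨z, hz, rfl⟩ := hp2
      rw [hB, mem_biUnion]
      exact ⟨z, hz, (ht z y).2 hp1⟩
    have h4 := Finset.card_le_card h3
    rw [h1, h2, cA] at h4
    omega
  obtain ⟨f, finj, hf⟩ := (Finset.all_card_le_biUnion_card_iff_exists_injective t).1 hall
  have fR : ∀ x : ι, (x.1, f x) ∈ R := fun x => (ht x _).1 (hf x)
  have fsurj : ∀ y, y ≠ y0 → ∃ x : ι, f x = y := by
    have hcard : (univ.image f).card = Fintype.card X - 1 := by
      rw [Finset.card_image_of_injective _ finj, Finset.card_univ]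
      have e1 : Fintype.card ι = (univ.filter fun x : X => x ≠ x0).card :=
        Fintype.card_subtype _
      have e2 : (univ.filter fun x : X => x ≠ x0) = univ \ {x0} := by
        ext x; simp
      rw [e1, e2, Finset.card_sdiff_of_subset (Finset.subset_univ _), Finset.card_singleton,
        Finset.card_univ]
    have hsub : univ.image f ⊆ univ \ {y0} := by
      intro y hy
      rw [mem_image] at hy
      obtain ⟨x, _, rfl⟩ := hy
      simp only [mem_sdiff, mem_univ, true_and, mem_singleton]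
      intro h
      have := fR x
      rw [h] at this
      exact hRy0 _ this
    have heq : univ.image f = univ \ {y0} := by
      apply Finset.eq_of_subset_of_card_le hsub
      rw [hcard, Finset.card_sdiff_of_subset (Finset.subset_univ _), Finset.card_singleton,
        Finset.card_univ, card_eq E hE]
    intro y h0
    have : y ∈ univ.image f := by
      rw [heq]; simp [h0]
    rw [mem_image] at this
    obtain ⟨x, _, hx⟩ := this
    exact ⟨x, hx⟩
  let M : X → Y := fun x => if h : x ≠ x0 then f ⟨x, h⟩ else y0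
  have M1 : ∀ x (h : x ≠ x0), M x = f ⟨x, h⟩ := by
    intro x h; simp only [M]; rw [dif_pos h]
  have MR : ∀ x, x ≠ x0 → (x, M x) ∈ R := by
    intro x h; rw [M1 x h]; exact fR ⟨x, h⟩
  have Minj : ∀ x x', x ≠ x0 → x' ≠ x0 → M x = M x' → x = x' := by
    intro x x' h h' hh
    rw [M1 x h, M1 x' h'] at hh
    exact congrArg Subtype.val (finj hh)
  have Msurj : ∀ y, y ≠ y0 → ∃ x, x ≠ x0 ∧ M x = y := by
    intro y hy
    obtain ⟨x, hx⟩ := fsurj y hy
    exact ⟨x.1, x.2, by rw [M1 x.1 x.2]; exact hx⟩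
  let c : X × Y → Fin 3 := fun p =>
    if p.1 = x0 ∨ p.2 = m p.1 then 2 else if p.2 = M p.1 then 0 else 1
  have c2 : ∀ x y, (x = x0 ∨ y = m x) → c (x, y) = 2 := by
    intro x y h; simp only [c]; rw [if_pos h]
  have c0 : ∀ x y, ¬ (x = x0 ∨ y = m x) → y = M x → c (x, y) = 0 := by
    intro x y h h'; simp only [c]; rw [if_neg h, if_pos h']
  have c1 : ∀ x y, ¬ (x = x0 ∨ y = m x) → y ≠ M x → c (x, y) = 1 := by
    intro x y h h'; simp only [c]; rw [if_neg h, if_neg h']
  refine ⟨c, ?_, ?_⟩
  · rintro ⟨x, y⟩ hp ⟨x', y'⟩ hq hpe hqe hpq hxx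
    simp only at hxx
    subst hxx
    refine ⟨?_, ?_⟩
    · intro h
      simp only at h
      rw [c2 x y (Or.inl h), c2 x y' (Or.inl h)]
    · intro h
      simp only at h
      have hyy : y ≠ y' := fun hh => hpq (by rw [hh])
      by_cases a1 : x = x0 ∨ y = m x <;> by_cases a2 : x = x0 ∨ y' = m x
      · exfalso
        rcases a1 with a1 | a1
        · exact h a1
        rcases a2 with a2 | a2
        · exact h a2
        exact hyy (a1.trans a2.symm)
      · rw [c2 _ _ a1]
        by_cases b : y' = M x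
        · rw [c0 _ _ a2 b]; decide
        · rw [c1 _ _ a2 b]; decide
      · rw [c2 _ _ a2]
        by_cases b : y = M x
        · rw [c0 _ _ a1 b]; decide
        · rw [c1 _ _ a1 b]; decide
      · by_cases b1 : y = M x <;> by_cases b2 : y' = M x
        · exact absurd (b1.trans b2.symm) hyy
        · rw [c0 _ _ a1 b1, c1 _ _ a2 b2]; decide
        · rw [c1 _ _ a1 b1, c0 _ _ a2 b2]; decide
        · exfalso
          push Not at a1 a2
          have h3 : 2 < (R.filter fun p => p.1 = x).card := by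
            rw [Finset.two_lt_card]
            refine ⟨(x, y), ?_, (x, y'), ?_, (x, M x), ?_, ?_, ?_, ?_⟩
            · rw [mem_filter, memR]; exact ⟨⟨hp, a1.1, a1.2⟩, rfl⟩
            · rw [mem_filter, memR]; exact ⟨⟨hq, a2.1, a2.2⟩, rfl⟩
            · rw [mem_filter]; exact ⟨MR x h, rfl⟩
            · exact hpq
            · intro hh; exact b1 (congrArg Prod.snd hh)
            · intro hh; exact b2 (congrArg Prod.snd hh)
          rw [degX x h] at h3
          omega
  · rintro ⟨x, y⟩ hp ⟨x', y'⟩ hq hpe hqe hpq hyy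
    simp only at hyy
    subst hyy
    have hxx : x ≠ x' := fun hh => hpq (by rw [hh])
    refine ⟨?_, ?_⟩
    · intro h
      simp only at h
      subst h
      have k1 : x ≠ x0 := fun hh => hpe (by rw [hh])
      have k2 : x' ≠ x0 := fun hh => hqe (by rw [hh])
      rw [c2 x y (Or.inr (hm2 x hp k1).symm), c2 x' y (Or.inr (hm2 x' hq k2).symm)]
    · intro h
      simp only at h
      by_cases a1 : x = x0 ∨ y = m x <;> by_cases a2 : x' = x0 ∨ y = m x'
      · exfalso
        obtain ⟨z, hz1, hz2, hz3⟩ := hm3 y h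
        exact hxx ((hz3 x hp a1).trans (hz3 x' hq a2).symm)
      · rw [c2 _ _ a1]
        by_cases b : y = M x'
        · rw [c0 _ _ a2 b]; decide
        · rw [c1 _ _ a2 b]; decide
      · rw [c2 _ _ a2]
        by_cases b : y = M x
        · rw [c0 _ _ a1 b]; decide
        · rw [c1 _ _ a1 b]; decide
      · by_cases b1 : y = M x <;> by_cases b2 : y = M x'
        · exfalso
          push Not at a1 a2
          exact hxx (Minj x x' a1.1 a2.1 (b1.symm.trans b2))
        · rw [c0 _ _ a1 b1, c1 _ _ a2 b2]; decide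
        · rw [c1 _ _ a1 b1, c0 _ _ a2 b2]; decide
        · exfalso
          push Not at a1 a2
          obtain ⟨z, hz, hzy⟩ := Msurj y h
          have h3 : 2 < (R.filter fun p => p.2 = y).card := by
            rw [Finset.two_lt_card]
            refine ⟨(x, y), ?_, (x', y), ?_, (z, y), ?_, ?_, ?_, ?_⟩
            · rw [mem_filter, memR]; exact ⟨⟨hp, a1.1, a1.2⟩, rfl⟩
            · rw [mem_filter, memR]; exact ⟨⟨hq, a2.1, a2.2⟩, rfl⟩
            · rw [mem_filter]
              refine ⟨?_, rfl⟩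
              rw [← hzy]; exact MR z hz
            · exact hpq
            · intro hh
              have : x = z := congrArg Prod.fst hh
              exact b1 (by rw [this]; exact hzy.symm)
            · intro hh
              have : x' = z := congrArg Prod.fst hh
              exact b2 (by rw [this]; exact hzy.symm)
          rw [degY y h] at h3
          omega


lemma submod (E : Finset (X × Y)) (A C : Finset X) (B D : Finset Y) :
    (cut E (A ∩ C) (B ∩ D)).card + (cut E (A ∪ C) (B ∪ D)).card ≤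
      (cut E A B).card + (cut E C D).card := by
  unfold cut
  simp only [Finset.card_filter]
  rw [← Finset.sum_add_distrib, ← Finset.sum_add_distrib]
  apply Finset.sum_le_sum
  intro p _
  by_cases hA : p.1 ∈ A <;> by_cases hB : p.2 ∈ B <;> by_cases hC : p.1 ∈ C <;>
    by_cases hD : p.2 ∈ D <;> simp [hA, hB, hC, hD]

lemma cut_compl (E : Finset (X × Y)) (A : Finset X) (B : Finset Y) :
    cut E Aᶜ Bᶜ = cut E A B := by
  ext p
  unfold cut
  simp only [mem_filter, mem_compl]
  tauto

lemma cut_ne_one (E : Finset (X × Y)) (hE : IsCubic E) (A : Finset X) (B : Finset Y) :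
    (cut E A B).card ≠ 1 := by
  intro h
  have h1 := cut_card E hE A B
  have h2 : (E.filter fun p => p.1 ∈ A ∧ p.2 ∉ B).card ≤ (cut E A B).card := by
    apply Finset.card_le_card
    intro p hp
    unfold cut
    rw [mem_filter] at hp ⊢
    exact ⟨hp.1, fun h => hp.2.2 (h.1 hp.2.1)⟩
  omega

/-- Every nonempty simple bipartite cubic graph has an edge in no 2-edge-cut. -/
lemma exists_edge (E : Finset (X × Y)) (hE : IsCubic E) (hne : E.Nonempty) :
    ∃ e ∈ E, ∀ C D, e ∈ cut E C D → (cut E C D).card ≠ 2 := by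
  classical
  obtain ⟨e0, he0⟩ := hne
  set P : Finset (Finset X × Finset Y) := univ.filter fun s =>
    0 < s.1.card + s.2.card ∧ (cut E s.1 s.2).card ≤ 2 with hP
  have hPne : P.Nonempty := by
    refine ⟨(univ, univ), ?_⟩
    rw [hP, mem_filter]
    refine ⟨mem_univ _, ?_, ?_⟩
    · have : 0 < (univ : Finset X).card := Finset.card_pos.2 ⟨e0.1, mem_univ _⟩
      simp only
      omega
    · have : cut E (univ : Finset X) (univ : Finset Y) = ∅ := by
        unfold cut; simp
      simp only [this]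
      simp
  obtain ⟨⟨A, B⟩, hAB, hmin⟩ := Finset.exists_min_image P (fun s => s.1.card + s.2.card) hPne
  rw [hP, mem_filter] at hAB
  obtain ⟨-, hpos, hd⟩ := hAB
  simp only at hpos hd hmin
  have hmin' : ∀ (A' : Finset X) (B' : Finset Y), 0 < A'.card + B'.card →
      A'.card + B'.card < A.card + B.card → 3 ≤ (cut E A' B').card := by
    intro A' B' h1 h2
    by_contra h3
    push Not at h3
    have := hmin (A', B') (by
      rw [hP, mem_filter]
      exact ⟨mem_univ _, h1, by simp only; omega⟩)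
    simp only at this
    omega
  -- an edge inside
  obtain ⟨x, y, hxy, hx, hy⟩ : ∃ x y, (x, y) ∈ E ∧ x ∈ A ∧ y ∈ B := by
    have hcase : 0 < A.card ∨ 0 < B.card := by omega
    rcases hcase with h | h
    · obtain ⟨x, hx⟩ := Finset.card_pos.1 h
      have hlt : (cut E A B).card < (E.filter fun p => p.1 = x).card := by
        rw [hE.1 x]; omega
      obtain ⟨⟨a, b⟩, hp, hp'⟩ := Finset.exists_mem_notMem_of_card_lt_card hlt
      rw [mem_filter] at hp
      obtain ⟨hp1, hp2⟩ := hp
      simp only at hp2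
      subst hp2
      refine ⟨a, b, hp1, hx, ?_⟩
      by_contra hb
      apply hp'
      unfold cut
      rw [mem_filter]
      exact ⟨hp1, fun h => hb (h.1 hx)⟩
    · obtain ⟨y, hy⟩ := Finset.card_pos.1 h
      have hlt : (cut E A B).card < (E.filter fun p => p.2 = y).card := by
        rw [hE.2 y]; omega
      obtain ⟨⟨a, b⟩, hp, hp'⟩ := Finset.exists_mem_notMem_of_card_lt_card hlt
      rw [mem_filter] at hp
      obtain ⟨hp1, hp2⟩ := hp
      simp only at hp2
      subst hp2
      refine ⟨a, b, hp1, ?_, hy⟩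
      by_contra hb
      apply hp'
      unfold cut
      rw [mem_filter]
      exact ⟨hp1, fun h => hb (h.2 hy)⟩
  refine ⟨(x, y), hxy, ?_⟩
  intro C D hmem hcard
  have hsep : ¬ (x ∈ C ↔ y ∈ D) := by
    unfold cut at hmem
    exact (mem_filter.1 hmem).2
  have key : ∀ (C' : Finset X) (D' : Finset Y), ¬ (x ∈ C' ↔ y ∈ D') → (cut E C' D').card = 2 →
      3 ≤ (cut E (A ∩ C') (B ∩ D')).card ∧ (cut E (A ∪ C') (B ∪ D')).card = 0 := by
    intro C' D' h1 h2
    have h3 : 3 ≤ (cut E (A ∩ C') (B ∩ D')).card := by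
      apply hmin'
      · by_cases hxC : x ∈ C'
        · have : 0 < (A ∩ C').card := Finset.card_pos.2 ⟨x, mem_inter.2 ⟨hx, hxC⟩⟩
          omega
        · have hyD : y ∈ D' := by
            by_contra hyD
            exact h1 ⟨fun h => absurd h hxC, fun h => absurd h hyD⟩
          have : 0 < (B ∩ D').card := Finset.card_pos.2 ⟨y, mem_inter.2 ⟨hy, hyD⟩⟩
          omega
      · have l1 : (A ∩ C').card ≤ A.card := Finset.card_le_card Finset.inter_subset_left
        have l2 : (B ∩ D').card ≤ B.card := Finset.card_le_card Finset.inter_subset_left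
        by_cases hxC : x ∈ C'
        · have hyD : y ∉ D' := by
            intro hyD
            exact h1 ⟨fun _ => hyD, fun _ => hxC⟩
          have : (B ∩ D').card < B.card := by
            apply Finset.card_lt_card
            rw [Finset.ssubset_iff_of_subset Finset.inter_subset_left]
            exact ⟨y, hy, fun h => hyD (mem_inter.1 h).2⟩
          omega
        · have : (A ∩ C').card < A.card := by
            apply Finset.card_lt_card
            rw [Finset.ssubset_iff_of_subset Finset.inter_subset_left]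
            exact ⟨x, hx, fun h => hxC (mem_inter.1 h).2⟩
          omega
    refine ⟨h3, ?_⟩
    have h4 := submod E A C' B D'
    have h5 := cut_ne_one E hE (A ∪ C') (B ∪ D')
    omega
  obtain ⟨k1, k2⟩ := key C D hsep hcard
  obtain ⟨-, k4⟩ := key Cᶜ Dᶜ (by rw [mem_compl, mem_compl]; tauto)
    (by rw [cut_compl]; exact hcard)
  have h6 := submod E (A ∪ C) (A ∪ Cᶜ) (B ∪ D) (B ∪ Dᶜ)
  have e1 : (A ∪ C) ∩ (A ∪ Cᶜ) = A := by
    ext z; simp only [mem_inter, mem_union, mem_compl]; tauto
  have e2 : (B ∪ D) ∩ (B ∪ Dᶜ) = B := by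
    ext z; simp only [mem_inter, mem_union, mem_compl]; tauto
  rw [e1, e2] at h6
  have h7 := submod E A C B D
  omega

lemma parity {Z : Type} [DecidableEq Z] (F : Finset (X × Y)) (π : X × Y → Z)
    (c : X × Y → Fin 3) (z0 : Z)
    (h3 : ∀ z, z ≠ z0 → (F.filter fun p => π p = z).card = 3)
    (h3' : ∀ z, z ≠ z0 → ∀ p ∈ F, ∀ q ∈ F, p ≠ q → π p = z → π q = z → c p ≠ c q)
    (h2 : (F.filter fun p => π p = z0).card = 2)
    (h2' : ∀ p ∈ F, ∀ q ∈ F, π p = z0 → π q = z0 → c p = c q)
    (A : Finset Z) (k : Fin 3) :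
    ∃ t, (F.filter fun p => π p ∈ A ∧ c p = k).card = (A.erase z0).card + 2 * t := by
  have hsum : (F.filter fun p => π p ∈ A ∧ c p = k).card =
      ∑ z ∈ A, (F.filter fun p => π p = z ∧ c p = k).card := by
    rw [Finset.card_eq_sum_card_fiberwise (f := π) (t := A) (fun p hp => by
      exact (mem_filter.1 hp).2.1)]
    apply Finset.sum_congr rfl
    intro z hz
    congr 1
    ext p
    simp only [mem_filter]
    constructor
    · rintro ⟨⟨h1, h2, h3⟩, h4⟩; exact ⟨h1, h4, h3⟩
    · rintro ⟨h1, h4, h3⟩; exact ⟨⟨h1, by rw [h4]; exact hz, h3⟩, h4⟩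
  have hone : ∀ z, z ≠ z0 → (F.filter fun p => π p = z ∧ c p = k).card = 1 := by
    intro z hz
    have hinj : Set.InjOn c ((F.filter fun p => π p = z : Finset (X × Y)) : Set (X × Y)) := by
      intro p hp q hq hpq
      have hp' := mem_filter.1 (mem_coe.1 hp)
      have hq' := mem_filter.1 (mem_coe.1 hq)
      by_contra hne
      exact h3' z hz p hp'.1 q hq'.1 hne hp'.2 hq'.2 hpq
    have himg : (F.filter fun p => π p = z).image c = univ := by
      apply Finset.eq_univ_of_card
      rw [Finset.card_image_of_injOn hinj, h3 z hz]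
      rfl
    have hk : k ∈ (F.filter fun p => π p = z).image c := by rw [himg]; exact mem_univ _
    obtain ⟨p, hp, hpk⟩ := mem_image.1 hk
    rw [Finset.card_eq_one]
    refine ⟨p, ?_⟩
    ext q
    rw [mem_filter, mem_singleton]
    constructor
    · rintro ⟨hq1, hq2, hq3⟩
      exact hinj (mem_coe.2 (mem_filter.2 ⟨hq1, hq2⟩)) (mem_coe.2 hp) (hq3.trans hpk.symm)
    · rintro rfl
      exact ⟨(mem_filter.1 hp).1, (mem_filter.1 hp).2, hpk⟩
  have hzero : ∃ t, (F.filter fun p => π p = z0 ∧ c p = k).card = 2 * t := by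
    by_cases hk : ∃ p ∈ F, π p = z0 ∧ c p = k
    · obtain ⟨p, hp, hp1, hp2⟩ := hk
      refine ⟨1, ?_⟩
      rw [mul_one, ← h2]
      congr 1
      ext q
      simp only [mem_filter]
      constructor
      · rintro ⟨a, b, _⟩; exact ⟨a, b⟩
      · rintro ⟨a, b⟩; exact ⟨a, b, (h2' q a p hp b hp1).trans hp2⟩
    · refine ⟨0, ?_⟩
      rw [mul_zero, Finset.card_eq_zero, Finset.filter_eq_empty_iff]
      intro p hp h
      exact hk ⟨p, hp, h⟩
  obtain ⟨t, ht⟩ := hzero
  have hrest : ∑ z ∈ A.erase z0, (F.filter fun p => π p = z ∧ c p = k).card =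
      (A.erase z0).card := by
    rw [Finset.sum_congr rfl (g := fun _ => 1)]
    · simp
    · intro z hz
      exact hone z (Finset.ne_of_mem_erase hz)
  rw [hsum]
  by_cases hA : z0 ∈ A
  · refine ⟨t, ?_⟩
    rw [← Finset.add_sum_erase A _ hA, hrest, ht]
    ring
  · refine ⟨0, ?_⟩
    rw [Finset.erase_eq_of_notMem hA] at hrest ⊢
    rw [hrest]
    ring

/-- An edge in a 2-edge-cut is not removable. -/
lemma not_removable (E : Finset (X × Y)) (hE : IsCubic E) (e : X × Y) (he : e ∈ E)
    (c : X × Y → Fin 3) (hc : IsColouringMinus E e c) (A : Finset X) (B : Finset Y)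
    (hmem : e ∈ cut E A B) : (cut E A B).card ≠ 2 := by
  intro hcard
  set F := E.erase e with hF
  have memF : ∀ p, p ∈ F ↔ (p ≠ e ∧ p ∈ E) := by intro p; rw [hF, mem_erase]
  have pA : ∀ k, ∃ t, (F.filter fun p => p.1 ∈ A ∧ c p = k).card = (A.erase e.1).card + 2 * t := by
    intro k
    apply parity F Prod.fst c e.1
    · intro z hz
      rw [← hE.1 z]
      congr 1
      ext p
      rw [mem_filter, mem_filter, memF]
      constructor
      · rintro ⟨⟨_, h1⟩, h2⟩; exact ⟨h1, h2⟩
      · rintro ⟨h1, h2⟩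
        refine ⟨⟨?_, h1⟩, h2⟩
        rintro rfl
        exact hz h2.symm
    · intro z hz p hp q hq hpq h1 h2
      rw [memF] at hp hq
      exact (hc.1 p hp.2 q hq.2 hp.1 hq.1 hpq (h1.trans h2.symm)).2 (by rw [h1]; exact hz)
    · have : (F.filter fun p => p.1 = e.1) = (E.filter fun p => p.1 = e.1).erase e := by
        ext p
        simp only [hF, mem_filter, mem_erase]
        tauto
      have hm : e ∈ E.filter fun p => p.1 = e.1 := mem_filter.2 ⟨he, rfl⟩
      rw [this, Finset.card_erase_of_mem hm, hE.1]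
    · intro p hp q hq h1 h2
      rw [memF] at hp hq
      by_cases hpq : p = q
      · rw [hpq]
      · exact (hc.1 p hp.2 q hq.2 hp.1 hq.1 hpq (h1.trans h2.symm)).1 h1
  have pB : ∀ k, ∃ t, (F.filter fun p => p.2 ∈ B ∧ c p = k).card = (B.erase e.2).card + 2 * t := by
    intro k
    apply parity F Prod.snd c e.2
    · intro z hz
      rw [← hE.2 z]
      congr 1
      ext p
      rw [mem_filter, mem_filter, memF]
      constructor
      · rintro ⟨⟨_, h1⟩, h2⟩; exact ⟨h1, h2⟩
      · rintro ⟨h1, h2⟩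
        refine ⟨⟨?_, h1⟩, h2⟩
        rintro rfl
        exact hz h2.symm
    · intro z hz p hp q hq hpq h1 h2
      rw [memF] at hp hq
      exact (hc.2 p hp.2 q hq.2 hp.1 hq.1 hpq (h1.trans h2.symm)).2 (by rw [h1]; exact hz)
    · have : (F.filter fun p => p.2 = e.2) = (E.filter fun p => p.2 = e.2).erase e := by
        ext p
        simp only [hF, mem_filter, mem_erase]
        tauto
      have hm : e ∈ E.filter fun p => p.2 = e.2 := mem_filter.2 ⟨he, rfl⟩
      rw [this, Finset.card_erase_of_mem hm, hE.2]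
    · intro p hp q hq h1 h2
      rw [memF] at hp hq
      by_cases hpq : p = q
      · rw [hpq]
      · exact (hc.2 p hp.2 q hq.2 hp.1 hq.1 hpq (h1.trans h2.symm)).1 h1
  have hN : ∀ k, (F.filter fun p => (¬ (p.1 ∈ A ↔ p.2 ∈ B)) ∧ c p = k).card +
      2 * (F.filter fun p => (p.1 ∈ A ∧ p.2 ∈ B) ∧ c p = k).card =
      (F.filter fun p => p.1 ∈ A ∧ c p = k).card + (F.filter fun p => p.2 ∈ B ∧ c p = k).card := by
    intro k
    simp only [Finset.card_filter]
    rw [Finset.mul_sum, ← Finset.sum_add_distrib, ← Finset.sum_add_distrib]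
    apply Finset.sum_congr rfl
    intro p _
    by_cases hA : p.1 ∈ A <;> by_cases hB : p.2 ∈ B <;> by_cases hk : c p = k <;>
      simp [hA, hB, hk]
  have hcutF : (F.filter fun p => ¬ (p.1 ∈ A ↔ p.2 ∈ B)).card = 1 := by
    have : (F.filter fun p => ¬ (p.1 ∈ A ↔ p.2 ∈ B)) = (cut E A B).erase e := by
      ext p
      unfold cut
      simp only [hF, mem_filter, mem_erase]
      tauto
    rw [this, Finset.card_erase_of_mem hmem, hcard]
  have htot : (F.filter fun p => ¬ (p.1 ∈ A ↔ p.2 ∈ B)).card =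
      ∑ k : Fin 3, (F.filter fun p => (¬ (p.1 ∈ A ↔ p.2 ∈ B)) ∧ c p = k).card := by
    rw [Finset.card_eq_sum_card_fiberwise (f := c) (t := univ) (fun _ _ => by simp)]
    apply Finset.sum_congr rfl
    intro k _
    congr 1
    ext p
    simp only [mem_filter]
    tauto
  rw [Fin.sum_univ_three, hcutF] at htot
  obtain ⟨a0, ha0⟩ := pA 0
  obtain ⟨a1, ha1⟩ := pA 1
  obtain ⟨a2, ha2⟩ := pA 2
  obtain ⟨b0, hb0⟩ := pB 0
  obtain ⟨b1, hb1⟩ := pB 1
  obtain ⟨b2, hb2⟩ := pB 2
  have n0 := hN 0
  have n1 := hN 1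
  have n2 := hN 2
  omega

/-- **Q1 of MP_bcbcf8_co for simple bipartite cubic graphs.** Let `G` be a finite nonempty simple
bipartite cubic graph (connected or not) with parts `X`, `Y` and edge set `E`. Then for every edge
`e` of `G` the cubic graph homeomorphic to `G - e` is 3-edge-colourable if and only if `e` lies in
no 2-edge-cut, and `G` has an edge that lies in no 2-edge-cut. -/
theorem result (E : Finset (X × Y)) (hE : IsCubic E) (hne : E.Nonempty) :
    (∀ e ∈ E, (∃ c : X × Y → Fin 3, IsColouringMinus E e c) ↔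
      ∀ A B, e ∈ cut E A B → (cut E A B).card ≠ 2) ∧
    ∃ e ∈ E, ∀ A B, e ∈ cut E A B → (cut E A B).card ≠ 2 :=
  ⟨fun e he => ⟨fun ⟨c, hc⟩ A B h => not_removable E hE e he c hc A B h,
    fun h => removable E hE e he h⟩, exists_edge E hE hne⟩

end Pool.Agent.Results.MP_bcbcf8_co.BipartiteCubic
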