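import Mathlib

/-!
# MP_bcbcf8_co : 3-edge-colourable cubic graphs with a cycle of length 2, 3 or 5
-/

namespace Pool.Agent.Results.MP_bcbcf8_co.ShortCycles

open Finset

variable {V E : Type} [Fintype V] [Fintype E] [DecidableEq V] [DecidableEq E]

/-- A finite loopless multigraph with vertex set `V` and edge set `E`: `inc f` is the set of the two
ends of the edge `f`. -/
def IsMultigraph (inc : E → Finset V) : Prop := ∀ f, (inc f).card = 2

/-- Every vertex lies on exactly three edges. -/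
def IsCubic (inc : E → Finset V) : Prop := ∀ v, (univ.filter fun f => v ∈ inc f).card = 3

/-- Every vertex set other than the empty and the full one is left by some edge. -/
def IsConnected (inc : E → Finset V) : Prop :=
  ∀ S : Finset V, S.Nonempty → S ≠ univ → ∃ f, (∃ v ∈ inc f, v ∈ S) ∧ ∃ v ∈ inc f, v ∉ S

/-- `c` is a 3-edge colouring. -/
def IsColouring (inc : E → Finset V) (c : E → Fin 3) : Prop :=
  ∀ f g, f ≠ g → ∀ v, v ∈ inc f → v ∈ inc g → c f ≠ c g

/-- `c` is a 3-edge colouring of the cubic graph homeomorphic to `G - e`: the edges other than `e`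
are coloured, two different edges with a common end `v` have different colours if `v` is not an end
of `e`, and the same colour if `v` is an end of `e` (there the two edges form one edge after `v` is
suppressed). -/
def IsColouringMinus (inc : E → Finset V) (e : E) (c : E → Fin 3) : Prop :=
  ∀ f g, f ≠ e → g ≠ e → f ≠ g → ∀ v, v ∈ inc f → v ∈ inc g →
    ((v ∈ inc e → c f = c g) ∧ (v ∉ inc e → c f ≠ c g))

/-- `v`, `d` are the vertices and edges of a cycle of length `l` in cyclic order. -/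
def IsCycle (inc : E → Finset V) (l : ℕ) (v : ZMod l → V) (d : ZMod l → E) : Prop :=
  Function.Injective v ∧ Function.Injective d ∧ ∀ i, inc (d i) = {v i, v (i + 1)}

lemma third_ne (x y a : Fin 3) (h : x ≠ y) : -x - a ≠ -y - a := by
  revert x y a; decide

lemma third_eq (x z a : Fin 3) (h1 : x ≠ a) (h2 : z ≠ a) (h3 : x ≠ z) : -x - a = z := by
  revert x z a; decide

lemma third_ne_a (x a : Fin 3) (h : x ≠ a) : -x - a ≠ a := by
  revert x a; decide

lemma forced (x y z a : Fin 3) (h1 : x ≠ a) (h2 : y ≠ a) (h3 : x ≠ y) (h4 : z ≠ x) (h5 : z ≠ y) :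
    z = a := by
  have k1 := x.isLt
  have k2 := y.isLt
  have k3 := z.isLt
  have k4 := a.isLt
  rw [Ne, Fin.ext_iff] at h1 h2 h3 h4 h5
  apply Fin.ext
  omega

lemma no_four (x y z w : Fin 3) (h1 : x ≠ y) (h2 : x ≠ z) (h3 : x ≠ w) (h4 : y ≠ z) (h5 : y ≠ w)
    (h6 : z ≠ w) : False := by
  have k1 := x.isLt
  have k2 := y.isLt
  have k3 := z.isLt
  have k4 := w.isLt
  rw [Ne, Fin.ext_iff] at h1 h2 h3 h4 h5 h6
  omega

lemma main (inc : E → Finset V) (c : E → Fin 3) (hc : IsColouring inc c) (l : ℕ) (hl : 2 ≤ l)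
    (v : ZMod l → V) (d : ZMod l → E) (hcyc : IsCycle inc l v d) (i0 : ZMod l)
    (hu : ∀ j, j ≠ i0 → c (d j) ≠ c (d i0)) :
    ∃ c' : E → Fin 3, IsColouringMinus inc (d i0) c' := by
  classical
  obtain ⟨vinj, dinj, hinc⟩ := hcyc
  have hone : (1 : ZMod l) ≠ 0 := by
    have : Fact (1 < l) := ⟨by omega⟩
    exact one_ne_zero
  have hmem : ∀ i w, w ∈ inc (d i) ↔ (w = v i ∨ w = v (i + 1)) := by
    intro i w; rw [hinc i]; simp
  have F2 : ∀ i w, w ∈ inc (d i) → ∃ j, j ≠ i ∧ w ∈ inc (d j) := by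
    intro i w hw
    rcases (hmem i w).1 hw with h | h
    · refine ⟨i - 1, ?_, ?_⟩
      · intro h'
        apply hone
        have : i - (i - 1) = i - i := by rw [h']
        simpa using this
      · rw [hmem]; right; rw [h]; congr 1; ring
    · refine ⟨i + 1, ?_, ?_⟩
      · intro h'
        apply hone
        simpa using h'
      · rw [hmem]; left; exact h
  have F1 : ∀ i j k w, i ≠ j → w ∈ inc (d i) → w ∈ inc (d j) → w ∈ inc (d k) → k = i ∨ k = j := by
    intro i j k w hij hi hj hk
    rcases (hmem i w).1 hi with h1 | h1 <;> rcases (hmem j w).1 hj with h2 | h2 <;>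
      rcases (hmem k w).1 hk with h3 | h3
    · exact absurd (vinj (h1.symm.trans h2)) hij
    · exact absurd (vinj (h1.symm.trans h2)) hij
    · left; exact vinj (h3.symm.trans h1)
    · right
      exact add_right_cancel (vinj (h3.symm.trans h2))
    · right; exact vinj (h3.symm.trans h2)
    · left
      exact add_right_cancel (vinj (h3.symm.trans h1))
    · exact absurd (add_right_cancel (vinj (h1.symm.trans h2))) hij
    · exact absurd (add_right_cancel (vinj (h1.symm.trans h2))) hij
  set a := c (d i0) with ha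
  let c' : E → Fin 3 := fun f => if ∃ i, d i = f then -c f - a else c f
  have c1 : ∀ i, c' (d i) = -c (d i) - a := by
    intro i; simp only [c']; rw [if_pos ⟨i, rfl⟩]
  have c2 : ∀ f, (¬ ∃ i, d i = f) → c' f = c f := by
    intro f h; simp only [c']; rw [if_neg h]
  -- the mixed case
  have mixed : ∀ i g w, d i ≠ d i0 → g ≠ d i0 → (¬ ∃ j, d j = g) → w ∈ inc (d i) → w ∈ inc g →
      ((w ∈ inc (d i0) → c' (d i) = c' g) ∧ (w ∉ inc (d i0) → c' (d i) ≠ c' g)) := by
    intro i g w hi hg hgZ hwi hwg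
    rw [c1 i, c2 g hgZ]
    have hig : d i ≠ g := fun h => hgZ ⟨i, h⟩
    have e1 : c (d i) ≠ c g := hc _ _ hig w hwi hwg
    constructor
    · intro hw
      have e2 : c (d i) ≠ a := hc _ _ hi w hwi hw
      have e3 : c g ≠ a := hc _ _ hg w hwg hw
      exact third_eq _ _ _ e2 e3 e1
    · intro hw
      obtain ⟨j, hj1, hj2⟩ := F2 i w hwi
      have hj0 : j ≠ i0 := by
        rintro rfl
        exact hw hj2
      have hi0 : i ≠ i0 := fun h => hi (by rw [h])
      have e2 : c (d i) ≠ a := hu i hi0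
      have e3 : c (d j) ≠ a := hu j hj0
      have hjg : d j ≠ g := fun h => hgZ ⟨j, h⟩
      have e4 : c (d i) ≠ c (d j) := hc _ _ (fun h => hj1 (dinj h).symm) w hwi hj2
      have e5 : c g ≠ c (d j) := (hc _ _ hjg w hj2 hwg).symm
      have e6 : c g = a := forced _ _ _ _ e2 e3 e4 e1.symm e5
      rw [e6]
      exact third_ne_a _ _ e2
  refine ⟨c', ?_⟩
  intro f g hf hg hfg w hwf hwg
  by_cases hfZ : ∃ i, d i = f <;> by_cases hgZ : ∃ j, d j = g
  · obtain ⟨i, rfl⟩ := hfZ
    obtain ⟨j, rfl⟩ := hgZ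
    have hij : i ≠ j := fun h => hfg (by rw [h])
    constructor
    · intro hw
      exfalso
      rcases F1 i j i0 w hij hwf hwg hw with h | h
      · exact hf (by rw [h])
      · exact hg (by rw [h])
    · intro _
      rw [c1 i, c1 j]
      exact third_ne _ _ _ (hc _ _ hfg w hwf hwg)
  · obtain ⟨i, rfl⟩ := hfZ
    exact mixed i g w hf hg hgZ hwf hwg
  · obtain ⟨j, rfl⟩ := hgZ
    have := mixed j f w hg hf hfZ hwg hwf
    exact ⟨fun hw => (this.1 hw).symm, fun hw => (this.2 hw).symm⟩
  · rw [c2 f hfZ, c2 g hgZ]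
    have e1 : c f ≠ c g := hc _ _ hfg w hwf hwg
    constructor
    · intro hw
      exfalso
      obtain ⟨j, hj1, hj2⟩ := F2 i0 w hw
      have hjf : d j ≠ f := fun h => hfZ ⟨j, h⟩
      have hjg : d j ≠ g := fun h => hgZ ⟨j, h⟩
      have hj0 : d j ≠ d i0 := fun h => hj1 (dinj h)
      exact no_four (c (d j)) (c (d i0)) (c f) (c g) (hc _ _ hj0 w hj2 hw)
        (hc _ _ hjf w hj2 hwf) (hc _ _ hjg w hj2 hwg) (hc _ _ hf.symm w hw hwf)
        (hc _ _ hg.symm w hw hwg) e1
    · intro _; exact e1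

lemma unique_two (x : ZMod 2 → Fin 3) (h : ∀ i, x i ≠ x (i + 1)) :
    ∃ i, ∀ j, j ≠ i → x j ≠ x i := by
  revert x; decide +kernel

lemma unique_three (x : ZMod 3 → Fin 3) (h : ∀ i, x i ≠ x (i + 1)) :
    ∃ i, ∀ j, j ≠ i → x j ≠ x i := by
  revert x; decide +kernel

lemma unique_five (x : ZMod 5 → Fin 3) (h : ∀ i, x i ≠ x (i + 1)) :
    ∃ i, ∀ j, j ≠ i → x j ≠ x i := by
  revert x; decide +kernel

/-- **Q1 of MP_bcbcf8_co for graphs with a cycle of length 2, 3 or 5.** Let `G` be a connected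
cubic graph (multiple edges allowed) with more than two vertices and a 3-edge colouring, and let `Z`
be a cycle of `G` of length 2, 3 or 5. Then some edge `e` of `Z` is such that the cubic graph
homeomorphic to `G - e` has a 3-edge colouring. -/
theorem result (inc : E → Finset V) (_hG : IsMultigraph inc) (_hcub : IsCubic inc)
    (_hconn : IsConnected inc) (_hV : 2 < Fintype.card V) (hcol : ∃ c, IsColouring inc c)
    (l : ℕ) (hl : l = 2 ∨ l = 3 ∨ l = 5) (v : ZMod l → V) (d : ZMod l → E)
    (hZ : IsCycle inc l v d) :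
    ∃ i, ∃ c' : E → Fin 3, IsColouringMinus inc (d i) c' := by
  obtain ⟨c, hc⟩ := hcol
  have hl2 : 2 ≤ l := by omega
  have hone : (1 : ZMod l) ≠ 0 := by
    have : Fact (1 < l) := ⟨by omega⟩
    exact one_ne_zero
  have hx : ∀ i, c (d i) ≠ c (d (i + 1)) := by
    intro i
    apply hc _ _ _ (v (i + 1))
    · rw [hZ.2.2 i]; simp
    · rw [hZ.2.2 (i + 1)]; simp
    · intro h
      apply hone
      have := hZ.2.1 h
      simpa using this.symm
  have hex : ∃ i, ∀ j, j ≠ i → c (d j) ≠ c (d i) := by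
    rcases hl with rfl | rfl | rfl
    · exact unique_two (fun i => c (d i)) hx
    · exact unique_three (fun i => c (d i)) hx
    · exact unique_five (fun i => c (d i)) hx
  obtain ⟨i0, hi0⟩ := hex
  exact ⟨i0, main inc c hc l hl2 v d hZ i0 hi0⟩

end Pool.Agent.Results.MP_bcbcf8_co.ShortCycles
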