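import Mathlib
import Pool.Agent.Results.MP_bcbcf8_co.BipartiteCubic
import Pool.Agent.Results.MP_bcbcf8_co.ShortCycles

/-!
# MP_bcbcf8_co : Q1 for all bipartite graphs, multiple edges allowed
-/

namespace Pool.Agent.Results.MP_bcbcf8_co.BipartiteMulti

open Finset
open Pool.Agent.Results.MP_bcbcf8_co.ShortCycles (IsMultigraph IsConnected IsColouring IsCycle)

variable {V E : Type} [Fintype V] [Fintype E] [DecidableEq V] [DecidableEq E]

/-- `P` is one part of a bipartition: every edge has exactly one end in `P`. -/
def IsPart (inc : E → Finset V) (P : Finset V) : Prop := ∀ f, (inc f ∩ P).card = 1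

lemma ends_exist (inc : E → Finset V) (hG : IsMultigraph inc) (P : Finset V) (hP : IsPart inc P)
    (f : E) : ∃ (x : {v // v ∈ P}) (y : {v // v ∉ P}), inc f = {x.1, y.1} := by
  obtain ⟨a, b, hab, h⟩ := Finset.card_eq_two.1 (hG f)
  have h1 := hP f
  rw [h] at h1
  by_cases ha : a ∈ P <;> by_cases hb : b ∈ P
  · exfalso
    have : ({a, b} : Finset V) ∩ P = {a, b} := by
      rw [Finset.inter_eq_left]
      intro z hz
      simp only [mem_insert, mem_singleton] at hz
      rcases hz with rfl | rfl <;> assumption
    rw [this, Finset.card_pair hab] at h1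
    omega
  · exact ⟨⟨a, ha⟩, ⟨b, hb⟩, h⟩
  · exact ⟨⟨b, hb⟩, ⟨a, ha⟩, by rw [h, Finset.pair_comm]⟩
  · exfalso
    have : ({a, b} : Finset V) ∩ P = ∅ := by
      ext z
      simp only [mem_inter, mem_insert, mem_singleton, notMem_empty, iff_false, not_and]
      rintro (rfl | rfl) <;> assumption
    rw [this] at h1
    simp at h1

/-- **Q1 of MP_bcbcf8_co for bipartite graphs.** Let `G` be a connected bipartite cubic graph
(multiple edges allowed) with more than two vertices and a 3-edge colouring. Then there is an edge
`e` such that the cubic graph homeomorphic to `G - e` has a 3-edge colouring. -/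
theorem result (inc : E → Finset V) (hG : IsMultigraph inc) (hcub : ShortCycles.IsCubic inc)
    (hconn : IsConnected inc) (hV : 2 < Fintype.card V) (hcol : ∃ c, IsColouring inc c)
    (P : Finset V) (hP : IsPart inc P) :
    ∃ (e : E) (c' : E → Fin 3), ShortCycles.IsColouringMinus inc e c' := by
  classical
  by_cases hdig : ∃ f g, f ≠ g ∧ inc f = inc g
  · obtain ⟨f, g, hfg, hinc⟩ := hdig
    obtain ⟨a, b, hab, h⟩ := Finset.card_eq_two.1 (hG f)
    have h2 : ∀ i : ZMod 2, i = 0 ∨ i = 1 := by decide
    have h10 : (1 : ZMod 2) ≠ 0 := by decide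
    have h11 : (1 : ZMod 2) + 1 = 0 := by decide
    have hcyc : IsCycle inc 2 (fun i => if i = 0 then a else b) (fun i => if i = 0 then f else g) := by
      refine ⟨?_, ?_, ?_⟩
      · intro i j hij
        rcases h2 i with rfl | rfl <;> rcases h2 j with rfl | rfl
        · rfl
        · simp only [if_true, if_neg h10] at hij; exact absurd hij hab
        · simp only [if_true, if_neg h10] at hij; exact absurd hij.symm hab
        · rfl
      · intro i j hij
        rcases h2 i with rfl | rfl <;> rcases h2 j with rfl | rfl
        · rfl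
        · simp only [if_true, if_neg h10] at hij; exact absurd hij hfg
        · simp only [if_true, if_neg h10] at hij; exact absurd hij.symm hfg
        · rfl
      · intro i
        rcases h2 i with rfl | rfl
        · simp only [if_true, zero_add, if_neg h10]; exact h
        · simp only [if_neg h10, h11, if_true]; rw [← hinc, h, Finset.pair_comm]
    obtain ⟨i, c', hc'⟩ := ShortCycles.result inc hG hcub hconn hV hcol 2 (Or.inl rfl) _ _ hcyc
    exact ⟨_, c', hc'⟩
  · push Not at hdig
    choose φx φy hφ using ends_exist inc hG P hP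
    let φ : E → {v // v ∈ P} × {v // v ∉ P} := fun f => (φx f, φy f)
    have hinj : Function.Injective φ := by
      intro f g hfg
      by_contra hne
      apply hdig f g hne
      rw [hφ f, hφ g]
      have e1 : φx f = φx g := congrArg Prod.fst hfg
      have e2 : φy f = φy g := congrArg Prod.snd hfg
      rw [e1, e2]
    have memX : ∀ f (x : {v // v ∈ P}), x.1 ∈ inc f ↔ φx f = x := by
      intro f x
      rw [hφ f, mem_insert, mem_singleton]
      constructor
      · rintro (h | h)
        · exact (Subtype.ext h).symm
        · exfalso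
          have := (φy f).2
          rw [← h] at this
          exact this x.2
      · rintro rfl; left; rfl
    have memY : ∀ f (y : {v // v ∉ P}), y.1 ∈ inc f ↔ φy f = y := by
      intro f y
      rw [hφ f, mem_insert, mem_singleton]
      constructor
      · rintro (h | h)
        · exfalso
          have := (φx f).2
          rw [← h] at this
          exact y.2 this
        · exact (Subtype.ext h).symm
      · rintro rfl; right; rfl
    set E' : Finset ({v // v ∈ P} × {v // v ∉ P}) := univ.image φ with hE'
    have hcubic : BipartiteCubic.IsCubic E' := by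
      constructor
      · intro x
        have : (E'.filter fun p => p.1 = x) = (univ.filter fun f => x.1 ∈ inc f).image φ := by
          ext p
          simp only [hE', mem_filter, mem_image, mem_univ, true_and]
          constructor
          · rintro ⟨⟨f, rfl⟩, h⟩
            exact ⟨f, (memX f x).2 h, rfl⟩
          · rintro ⟨f, h, rfl⟩
            exact ⟨⟨f, rfl⟩, (memX f x).1 h⟩
        rw [this, Finset.card_image_of_injective _ hinj]
        exact hcub x.1
      · intro y
        have : (E'.filter fun p => p.2 = y) = (univ.filter fun f => y.1 ∈ inc f).image φ := by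
          ext p
          simp only [hE', mem_filter, mem_image, mem_univ, true_and]
          constructor
          · rintro ⟨⟨f, rfl⟩, h⟩
            exact ⟨f, (memY f y).2 h, rfl⟩
          · rintro ⟨f, h, rfl⟩
            exact ⟨⟨f, rfl⟩, (memY f y).1 h⟩
        rw [this, Finset.card_image_of_injective _ hinj]
        exact hcub y.1
    have hne : E'.Nonempty := by
      obtain ⟨v⟩ : Nonempty V := Fintype.card_pos_iff.1 (by omega)
      have h3 := hcub v
      have : (univ.filter fun f => v ∈ inc f).Nonempty := by
        rw [← Finset.card_pos, h3]; norm_num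
      obtain ⟨f, _⟩ := this
      exact ⟨φ f, mem_image_of_mem _ (mem_univ _)⟩
    obtain ⟨e', he', hcut⟩ := BipartiteCubic.exists_edge E' hcubic hne
    obtain ⟨c, hc⟩ := BipartiteCubic.removable E' hcubic e' he' hcut
    rw [hE', mem_image] at he'
    obtain ⟨e, _, rfl⟩ := he'
    have hmem : ∀ f, φ f ∈ E' := fun f => mem_image_of_mem _ (mem_univ _)
    refine ⟨e, fun f => c (φ f), ?_⟩
    intro f g hf hg hfg v hvf hvg
    have k1 : φ f ≠ φ e := fun h => hf (hinj h)
    have k2 : φ g ≠ φ e := fun h => hg (hinj h)
    have k3 : φ f ≠ φ g := fun h => hfg (hinj h)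
    by_cases hv : v ∈ P
    · have e1 : φx f = ⟨v, hv⟩ := (memX f ⟨v, hv⟩).1 hvf
      have e2 : φx g = ⟨v, hv⟩ := (memX g ⟨v, hv⟩).1 hvg
      have h1 := hc.1 (φ f) (hmem f) (φ g) (hmem g) k1 k2 k3 (e1.trans e2.symm)
      constructor
      · intro hve
        exact h1.1 (e1.trans ((memX e ⟨v, hv⟩).1 hve).symm)
      · intro hve
        apply h1.2
        intro h
        exact hve ((memX e ⟨v, hv⟩).2 (h.symm.trans e1))
    · have e1 : φy f = ⟨v, hv⟩ := (memY f ⟨v, hv⟩).1 hvf
      have e2 : φy g = ⟨v, hv⟩ := (memY g ⟨v, hv⟩).1 hvg
      have h1 := hc.2 (φ f) (hmem f) (φ g) (hmem g) k1 k2 k3 (e1.trans e2.symm)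
      constructor
      · intro hve
        exact h1.1 (e1.trans ((memY e ⟨v, hv⟩).1 hve).symm)
      · intro hve
        apply h1.2
        intro h
        exact hve ((memY e ⟨v, hv⟩).2 (h.symm.trans e1))

end Pool.Agent.Results.MP_bcbcf8_co.BipartiteMulti
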