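import Pool.Agent.R530.RemTab9
import Pool.Agent.R530.RemTab10

/-!
# Removable edges of 3-edge-colourable cubic graphs

Hand-in for `MP_bcbcf8_co`: in a 3-edge-colourable cubic graph every cycle of length at most 10
contains an edge `e` such that the cubic graph homeomorphic to `G - e` is 3-edge-colourable.

Idea: the colourings of the part of `G` outside the cycle (three different colours at every vertex
outside the cycle) are closed under Kempe changes. Such a colouring determines a closed walk of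
values (in the group with four elements, written as `0, 1, 2, 3` with bitwise xor) on the edges of
the cycle, up to a shift; if some value is hit exactly once, shifting gives a flow whose only zero
is on an edge of the cycle, which is therefore removable. A finite computation (files `RemTab9`,
`RemTab10`) shows that for cycles of length at most 10, starting from a 3-edge-colouring, Kempe
changes always lead to such a value.
-/

set_option autoImplicit false

namespace Pool.Agent.Results.MP_bcbcf8_co.GirthTen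

open Pool.Agent.R530

/-! ### Definitions of the problem -/

/-- A cubic graph, multiple edges (and loops) allowed, given by its darts (half-edges): every edge
consists of two darts `d` and `rev d`, the dart `d` starts at the vertex `src d`, and exactly three
darts start at every vertex. -/
structure CubicGraph (V D : Type*) where
  /-- the other dart of the same edge -/
  rev : D → D
  rev_rev : ∀ d, rev (rev d) = d
  rev_ne : ∀ d, rev d ≠ d
  /-- the vertex at which a dart starts -/
  src : D → V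
  cubic : ∀ v, {d | src d = v}.ncard = 3

variable {V D : Type*} (G : CubicGraph V D)

/-- `col` is a 3-edge-colouring of `G`: both darts of an edge have the same colour, and any two
darts at a vertex have different colours (so a graph with a loop has no colouring). -/
def CubicGraph.IsColouring (col : D → Fin 3) : Prop :=
  (∀ d, col (G.rev d) = col d) ∧ ∀ d d', d ≠ d' → G.src d = G.src d' → col d ≠ col d'

/-- The edge `e` (consisting of the darts `e` and `rev e`) joins two different vertices `u`, `v`, and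
the cubic graph homeomorphic to `G - e` has a 3-edge-colouring. The edges of that graph arise from
those of `G - e` by merging the two remaining edges at `u` and the two remaining edges at `v`; so a
colouring of it is a colouring of the edges of `G - e` in which any two darts at a vertex other than
`u`, `v` have different colours and the two remaining darts at `u`, and those at `v`, have the same
colour. (The values of `col` on the darts `e` and `rev e` are irrelevant.) -/
def CubicGraph.Removable (e : D) : Prop :=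
  G.src (G.rev e) ≠ G.src e ∧ ∃ col : D → Fin 3, (∀ d, col (G.rev d) = col d) ∧
    (∀ d d', d ≠ d' → G.src d = G.src d' → G.src d ≠ G.src e → G.src d ≠ G.src (G.rev e) →
      col d ≠ col d') ∧
    (∀ d d', G.src d = G.src d' → (G.src d = G.src e ∨ G.src d = G.src (G.rev e)) →
      d ≠ e → d ≠ G.rev e → d' ≠ e → d' ≠ G.rev e → col d = col d')

/-- `c 0, ..., c (k - 1)` are the consecutive darts of a cycle of length `k` of `G`: they start at
`k` different vertices, `c i` leads to the start of `c (i + 1)` (indices modulo `k`), and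
consecutive darts belong to different edges. -/
def CubicGraph.IsCycle (k : ℕ) (c : ℕ → D) : Prop :=
  0 < k ∧ (∀ i < k, ∀ j < k, G.src (c i) = G.src (c j) → i = j) ∧
    (∀ i < k, G.src (G.rev (c i)) = G.src (c ((i + 1) % k))) ∧
    (∀ i < k, c ((i + 1) % k) ≠ G.rev (c i))

/-! ### The cycle and its legs -/

theorem three_aux (v : V) (x y : D) (hx : G.src x = v) (hy : G.src y = v) (hxy : x ≠ y) :
    ∃ z, G.src z = v ∧ z ≠ x ∧ z ≠ y ∧ ∀ d, G.src d = v → d = x ∨ d = y ∨ d = z := by
  obtain ⟨p, q, r, hpq, hpr, hqr, hs⟩ := Set.ncard_eq_three.1 (G.cubic v)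
  have hm : ∀ d, G.src d = v ↔ d = p ∨ d = q ∨ d = r := by
    intro d
    have : d ∈ {d | G.src d = v} ↔ d ∈ ({p, q, r} : Set D) := by rw [hs]
    simpa using this
  have hp := (hm p).2 (Or.inl rfl)
  have hq := (hm q).2 (Or.inr (Or.inl rfl))
  have hr := (hm r).2 (Or.inr (Or.inr rfl))
  rcases (hm x).1 hx with rfl | rfl | rfl <;> rcases (hm y).1 hy with rfl | rfl | rfl
  · exact absurd rfl hxy
  · exact ⟨r, hr, hpr.symm, hqr.symm, fun d hd => (hm d).1 hd⟩
  · exact ⟨q, hq, hpq.symm, hqr, fun d hd => by rcases (hm d).1 hd with h | h | h <;> tauto⟩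
  · exact ⟨r, hr, hqr.symm, hpr.symm, fun d hd => by rcases (hm d).1 hd with h | h | h <;> tauto⟩
  · exact absurd rfl hxy
  · exact ⟨p, hp, hpq, hpr, fun d hd => by rcases (hm d).1 hd with h | h | h <;> tauto⟩
  · exact ⟨q, hq, hqr, hpq.symm, fun d hd => by rcases (hm d).1 hd with h | h | h <;> tauto⟩
  · exact ⟨p, hp, hpr, hpq, fun d hd => by rcases (hm d).1 hd with h | h | h <;> tauto⟩
  · exact absurd rfl hxy

/-- darts lying on the cycle -/
def CubicGraph.On (k : ℕ) (c : ℕ → D) (d : D) : Prop := ∃ i < k, d = c i ∨ d = G.rev (c i)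

/-- vertices lying on the cycle -/
def CubicGraph.Vx (k : ℕ) (c : ℕ → D) (v : V) : Prop := ∃ i < k, v = G.src (c i)

theorem pv_lt {k i : ℕ} (hk : 0 < k) : (i + (k - 1)) % k < k := Nat.mod_lt _ hk

theorem pv_succ {k i : ℕ} (hk : 0 < k) (hi : i < k) : ((i + (k - 1)) % k + 1) % k = i := by
  rw [Nat.add_mod, Nat.mod_mod, ← Nat.add_mod]
  have : i + (k - 1) + 1 = i + k := by omega
  rw [this, Nat.add_mod_right, Nat.mod_eq_of_lt hi]

theorem pv_of_succ {k i : ℕ} (hk : 0 < k) (hi : i < k) :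
    ((i + 1) % k + (k - 1)) % k = i := by
  rw [Nat.add_mod, Nat.mod_mod, ← Nat.add_mod]
  have : i + 1 + (k - 1) = i + k := by omega
  rw [this, Nat.add_mod_right, Nat.mod_eq_of_lt hi]

theorem On.vx {k : ℕ} {c : ℕ → D} (hc : G.IsCycle k c) {d : D} (h : G.On k c d) :
    G.Vx k c (G.src d) := by
  obtain ⟨i, hi, h | h⟩ := h
  · exact ⟨i, hi, by rw [h]⟩
  · refine ⟨(i + 1) % k, Nat.mod_lt _ hc.1, ?_⟩
    rw [h, hc.2.2.1 i hi]

theorem On.rev_iff {k : ℕ} {c : ℕ → D} {d : D} : G.On k c (G.rev d) ↔ G.On k c d := by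
  constructor
  · rintro ⟨i, hi, h | h⟩
    · exact ⟨i, hi, Or.inr (by rw [← h, G.rev_rev])⟩
    · refine ⟨i, hi, Or.inl ?_⟩
      rw [← G.rev_rev d, h, G.rev_rev]
  · rintro ⟨i, hi, h | h⟩
    · exact ⟨i, hi, Or.inr (by rw [h])⟩
    · exact ⟨i, hi, Or.inl (by rw [h, G.rev_rev])⟩

/-- the legs of the cycle -/
structure Legs (k : ℕ) (c : ℕ → D) (l : ℕ → D) : Prop where
  src : ∀ i < k, G.src (l i) = G.src (c i)
  ne1 : ∀ i < k, l i ≠ c i
  ne2 : ∀ i < k, l i ≠ G.rev (c ((i + (k - 1)) % k))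
  all : ∀ i < k, ∀ d, G.src d = G.src (c i) →
    d = c i ∨ d = G.rev (c ((i + (k - 1)) % k)) ∨ d = l i

theorem exists_legs {k : ℕ} {c : ℕ → D} (hc : G.IsCycle k c) : ∃ l, Legs G k c l := by
  have h : ∀ i, ∃ z : D, i < k → (G.src z = G.src (c i) ∧ z ≠ c i ∧
      z ≠ G.rev (c ((i + (k - 1)) % k)) ∧
      ∀ d, G.src d = G.src (c i) → d = c i ∨ d = G.rev (c ((i + (k - 1)) % k)) ∨ d = z) := by
    intro i
    by_cases hi : i < k
    · have h1 : G.src (G.rev (c ((i + (k - 1)) % k))) = G.src (c i) := by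
        rw [hc.2.2.1 _ (pv_lt hc.1), pv_succ hc.1 hi]
      have h2 : c i ≠ G.rev (c ((i + (k - 1)) % k)) := by
        have := hc.2.2.2 _ (pv_lt (i := i) hc.1)
        rwa [pv_succ hc.1 hi] at this
      obtain ⟨z, a, b, e, f⟩ := three_aux G (G.src (c i)) (c i) _ rfl h1 h2
      exact ⟨z, fun _ => ⟨a, b, e, f⟩⟩
    · exact ⟨c 0, fun h => absurd h hi⟩
  choose l hl using h
  exact ⟨l, ⟨fun i hi => (hl i hi).1, fun i hi => (hl i hi).2.1, fun i hi => (hl i hi).2.2.1,
    fun i hi => (hl i hi).2.2.2⟩⟩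

theorem Legs.not_on {k : ℕ} {c l : ℕ → D} (hc : G.IsCycle k c) (hl : Legs G k c l) {i : ℕ}
    (hi : i < k) : ¬ G.On k c (l i) := by
  rintro ⟨j, hj, h | h⟩
  · have := hc.2.1 i hi j hj (by rw [← hl.src i hi, h])
    subst this
    exact hl.ne1 i hi h
  · have h1 : G.src (c i) = G.src (c ((j + 1) % k)) := by
      rw [← hl.src i hi, h, hc.2.2.1 j hj]
    have h2 := hc.2.1 i hi _ (Nat.mod_lt _ hc.1) h1
    have h3 : (i + (k - 1)) % k = j := by rw [h2]; exact pv_of_succ hc.1 hj
    exact hl.ne2 i hi (by rw [h3]; exact h)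

theorem Legs.eq_of {k : ℕ} {c l : ℕ → D} (hc : G.IsCycle k c) (hl : Legs G k c l) {d : D}
    (hd : ¬ G.On k c d) (hv : G.Vx k c (G.src d)) : ∃ i < k, d = l i := by
  obtain ⟨i, hi, h⟩ := hv
  rcases hl.all i hi d h with h | h | h
  · exact absurd ⟨i, hi, Or.inl h⟩ hd
  · exact absurd ⟨_, pv_lt hc.1, Or.inr h⟩ hd
  · exact ⟨i, hi, h⟩

theorem Legs.inj {k : ℕ} {c l : ℕ → D} (hc : G.IsCycle k c) (hl : Legs G k c l) {i j : ℕ}
    (hi : i < k) (hj : j < k) (h : l i = l j) : i = j :=
  hc.2.1 i hi j hj (by rw [← hl.src i hi, h, hl.src j hj])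

/-- colourings outside the cycle -/
structure State (k : ℕ) (c : ℕ → D) (φ : D → ℕ) : Prop where
  rng : ∀ d, ¬ G.On k c d → 1 ≤ φ d ∧ φ d ≤ 3
  sym : ∀ d, φ (G.rev d) = φ d
  prop : ∀ d d', ¬ G.Vx k c (G.src d) → G.src d = G.src d' → d ≠ d' → φ d ≠ φ d'

theorem xor_rng {x q : ℕ} (h1 : 1 ≤ x) (h2 : x ≤ 3) (q1 : 1 ≤ q) (q2 : q ≤ 3) (h : x ≠ q) :
    1 ≤ x ^^^ q ∧ x ^^^ q ≤ 3 ∧ x ^^^ q ≠ q ∧ (x ^^^ q) ^^^ q = x := by
  interval_cases x <;> interval_cases q <;> first | exact absurd rfl h | decide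

theorem other_ex {k : ℕ} {c : ℕ → D} (hc : G.IsCycle k c) {φ : D → ℕ} (hφ : State G k c φ)
    {q : ℕ} (q1 : 1 ≤ q) (q2 : q ≤ 3) (d : D) (hd : φ d ≠ q) (hv : ¬ G.Vx k c (G.src d)) :
    ∃ d', d' ≠ d ∧ G.src d' = G.src d ∧ φ d' ≠ q ∧
      ∀ d'', d'' ≠ d → G.src d'' = G.src d → φ d'' ≠ q → d'' = d' := by
  have hon : ∀ e, G.src e = G.src d → ¬ G.On k c e := by
    intro e he ho
    exact hv (he ▸ On.vx G hc ho)
  obtain ⟨p, q', r, hpq, hpr, hqr, hs⟩ := Set.ncard_eq_three.1 (G.cubic (G.src d))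
  have hm : ∀ e, G.src e = G.src d ↔ e = p ∨ e = q' ∨ e = r := by
    intro e
    have : e ∈ {e | G.src e = G.src d} ↔ e ∈ ({p, q', r} : Set D) := by rw [hs]
    simpa using this
  obtain ⟨y, hyd, hys⟩ : ∃ y, y ≠ d ∧ G.src y = G.src d := by
    by_cases h : p = d
    · exact ⟨q', by rw [← h]; exact hpq.symm, (hm q').2 (Or.inr (Or.inl rfl))⟩
    · exact ⟨p, h, (hm p).2 (Or.inl rfl)⟩
  obtain ⟨z, hzs, hzd, hzy, hall⟩ := three_aux G (G.src d) d y rfl hys (Ne.symm hyd)
  have dd := hφ.rng d (hon d rfl)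
  have dy := hφ.rng y (hon y hys)
  have dz := hφ.rng z (hon z hzs)
  have n1 : φ d ≠ φ y := hφ.prop d y hv hys.symm (Ne.symm hyd)
  have n2 : φ d ≠ φ z := hφ.prop d z hv hzs.symm (Ne.symm hzd)
  have n3 : φ y ≠ φ z := by
    apply hφ.prop y z (by rw [hys]; exact hv) (by rw [hys, hzs]) (Ne.symm hzy)
  by_cases hy : φ y = q
  · refine ⟨z, hzd, hzs, ?_, ?_⟩
    · intro h; exact n3 (hy.trans h.symm)
    · intro e he hes heq
      rcases hall e hes with h | h | h
      · exact absurd h he
      · rw [h] at heq; exact absurd hy heq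
      · exact h
  · refine ⟨y, hyd, hys, hy, ?_⟩
    intro e he hes heq
    rcases hall e hes with h | h | h
    · exact absurd h he
    · exact h
    · exfalso
      rw [h] at heq
      omega


theorem kempe_step [Finite D] {k : ℕ} {c l : ℕ → D} (hc : G.IsCycle k c) (hl : Legs G k c l)
    {φ : D → ℕ} (hφ : State G k c φ) {q : ℕ} (q1 : 1 ≤ q) (q2 : q ≤ 3) :
    ∃ μ : ℕ → ℕ, (∀ i < k, φ (l i) ≠ q →
        μ i < k ∧ φ (l (μ i)) ≠ q ∧ μ i ≠ i ∧ μ (μ i) = i) ∧
      ∀ Y : ℕ → Bool, (∀ i, Y i = true → i < k ∧ φ (l i) ≠ q) →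
        (∀ i, Y i = true → Y (μ i) = true) →
        ∃ φ', State G k c φ' ∧ ∀ i < k, φ' (l i) = if Y i then φ (l i) ^^^ q else φ (l i) := by
  classical
  let X : D → Prop := fun d => ¬ G.On k c d ∧ φ d ≠ q
  have hXdef : ∀ d, X d ↔ ¬ G.On k c d ∧ φ d ≠ q := fun d => Iff.rfl
  have hXrev : ∀ d, X (G.rev d) ↔ X d := by
    intro d; rw [hXdef, hXdef, On.rev_iff, hφ.sym]
  have hoth : ∀ d, ∃ d', X d → ¬ G.Vx k c (G.src d) → (d' ≠ d ∧ G.src d' = G.src d ∧ φ d' ≠ q ∧
      ∀ d'', d'' ≠ d → G.src d'' = G.src d → φ d'' ≠ q → d'' = d') := by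
    intro d
    by_cases h : X d ∧ ¬ G.Vx k c (G.src d)
    · obtain ⟨d', hd'⟩ := other_ex G hc hφ q1 q2 d h.1.2 h.2
      exact ⟨d', fun _ _ => hd'⟩
    · exact ⟨d, fun h1 h2 => absurd ⟨h1, h2⟩ h⟩
  choose o ho using hoth
  have hXo : ∀ d, X d → ¬ G.Vx k c (G.src d) → X (o d) ∧ ¬ G.Vx k c (G.src (o d)) := by
    intro d h1 h2
    obtain ⟨a, b, e, _⟩ := ho d h1 h2
    have h3 : ¬ G.Vx k c (G.src (o d)) := by rw [b]; exact h2
    exact ⟨⟨fun hon => h3 (On.vx G hc hon), e⟩, h3⟩
  have hoo : ∀ d, X d → ¬ G.Vx k c (G.src d) → o (o d) = d := by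
    intro d h1 h2
    obtain ⟨a, b, e, _⟩ := ho d h1 h2
    obtain ⟨h3, h4⟩ := hXo d h1 h2
    exact ((ho (o d) h3 h4).2.2.2 d (Ne.symm a) b.symm h1.2).symm
  let Af : D → D := fun d => if X d then G.rev d else d
  let Bf : D → D := fun d => if X d ∧ ¬ G.Vx k c (G.src d) then o d else d
  have hAf : Function.Involutive Af := by
    intro d
    by_cases h : X d
    · have h1 : Af d = G.rev d := if_pos h
      have h2 : Af (G.rev d) = G.rev (G.rev d) := if_pos ((hXrev d).2 h)
      rw [h1, h2, G.rev_rev]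
    · have h1 : Af d = d := if_neg h
      rw [h1, h1]
  have hBf : Function.Involutive Bf := by
    intro d
    by_cases h : X d ∧ ¬ G.Vx k c (G.src d)
    · have h1 : Bf d = o d := if_pos h
      have h2 : Bf (o d) = o (o d) := if_pos (hXo d h.1 h.2)
      rw [h1, h2, hoo d h.1 h.2]
    · have h1 : Bf d = d := if_neg h
      rw [h1, h1]
  let A : Equiv.Perm D := hAf.toPerm Af
  let B : Equiv.Perm D := hBf.toPerm Bf
  have hA : ∀ d, A d = Af d := fun d => rfl
  have hB : ∀ d, B d = Bf d := fun d => rfl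
  have hAX : ∀ d, X d → A d = G.rev d := fun d h => if_pos h
  have hBX : ∀ d, X d → ¬ G.Vx k c (G.src d) → B d = o d := fun d h h' => if_pos ⟨h, h'⟩
  have hBV : ∀ d, G.Vx k c (G.src d) → B d = d := fun d h => if_neg (fun h' => h'.2 h)
  have hXA : ∀ d, X (A d) ↔ X d := by
    intro d
    by_cases h : X d
    · rw [hAX d h]; exact hXrev d
    · have h1 : A d = d := if_neg h
      rw [h1]
  have hXB : ∀ d, X (B d) ↔ X d := by
    intro d
    by_cases h : X d ∧ ¬ G.Vx k c (G.src d)
    · rw [hBX d h.1 h.2]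
      exact ⟨fun _ => h.1, fun _ => (hXo d h.1 h.2).1⟩
    · have h1 : B d = d := if_neg h
      rw [h1]
  have hXn : ∀ (n : ℕ) (d : D), X (((B * A) ^ n) d) ↔ X d := by
    intro n
    induction n with
    | zero => intro d; rfl
    | succ n ih =>
      intro d
      rw [pow_succ, Equiv.Perm.mul_apply, ih, Equiv.Perm.mul_apply, hXB, hXA]
  have hXz : ∀ (n : ℤ) (d : D), X (((B * A) ^ n) d) ↔ X d := by
    intro n d
    rcases Int.eq_nat_or_neg n with ⟨m, rfl | rfl⟩
    · rw [zpow_natCast]; exact hXn m d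
    · have := hXn m (((B * A) ^ (-(m : ℤ))) d)
      rw [← this, ← Equiv.Perm.mul_apply, ← zpow_natCast, ← zpow_add]
      simp
  have hXc : ∀ x y, (B * A).SameCycle x y → X x → X y := by
    rintro x y ⟨n, rfl⟩ h
    exact (hXz n x).2 h
  have hVl : ∀ i < k, G.Vx k c (G.src (l i)) := fun i hi => ⟨i, hi, hl.src i hi⟩
  have hXl : ∀ i < k, φ (l i) ≠ q → X (l i) := fun i hi h => ⟨Legs.not_on G hc hl hi, h⟩
  have hfixl : ∀ d, X d → B d = d → ∃ i < k, d = l i := by
    intro d h1 h2
    by_cases hv : G.Vx k c (G.src d)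
    · exact Legs.eq_of G hc hl h1.1 hv
    · rw [hBX d h1 hv] at h2
      exact absurd h2 (ho d h1 hv).1
  have hmain : ∀ i, ∃ j, i < k → φ (l i) ≠ q → (j < k ∧ φ (l j) ≠ q ∧ j ≠ i ∧
      (B * A).SameCycle (l i) (l j) ∧
      (∀ y, (B * A).SameCycle (l i) y → B y = y → y = l i ∨ y = l j) ∧
      ∀ y, (B * A).SameCycle (l i) y →
        (B * A).SameCycle (l i) (A y) ∧ (B * A).SameCycle (l i) (B y)) := by
    intro i
    by_cases h : i < k ∧ φ (l i) ≠ q
    · have hX := hXl i h.1 h.2
      obtain ⟨⟨l', a, b, e, f⟩, g⟩ := two_inv A B hAf hBf (l i) (hBV _ (hVl i h.1))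
        (by
          intro y hy
          rw [hAX y (hXc _ _ hy hX)]
          exact G.rev_ne y)
      obtain ⟨j, hj, rfl⟩ := hfixl l' (hXc _ _ e hX) b
      refine ⟨j, fun _ _ => ⟨hj, (hXc _ _ e hX).2, ?_, e, f, g⟩⟩
      rintro rfl
      exact a rfl
    · exact ⟨i, fun h1 h2 => absurd ⟨h1, h2⟩ h⟩
  choose μ hμ using hmain
  refine ⟨μ, ?_, ?_⟩
  · intro i hi hq
    obtain ⟨a, b, e, f, g, _⟩ := hμ i hi hq
    obtain ⟨a', b', e', f', _, _⟩ := hμ (μ i) a b
    refine ⟨a, b, e, ?_⟩
    rcases g _ (f.trans f') (hBV _ (hVl _ a')) with h | h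
    · exact Legs.inj G hc hl a' hi h
    · exact absurd (Legs.inj G hc hl a' a h) e'
  · intro Y hY1 hY2
    let T : D → Prop := fun d => ∃ i, Y i = true ∧ (B * A).SameCycle (l i) d
    have hTX : ∀ d, T d → X d := by
      rintro d ⟨i, hi, hs⟩
      exact hXc _ _ hs (hXl i (hY1 i hi).1 (hY1 i hi).2)
    have hTA : ∀ d, T d → T (A d) := by
      rintro d ⟨i, hi, hs⟩
      obtain ⟨_, _, _, _, _, g⟩ := hμ i (hY1 i hi).1 (hY1 i hi).2
      exact ⟨i, hi, (g d hs).1⟩
    have hTB : ∀ d, T d → T (B d) := by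
      rintro d ⟨i, hi, hs⟩
      obtain ⟨_, _, _, _, _, g⟩ := hμ i (hY1 i hi).1 (hY1 i hi).2
      exact ⟨i, hi, (g d hs).2⟩
    have hTrev1 : ∀ d, T d → T (G.rev d) := by
      intro d h
      have := hTA d h
      rwa [hAX d (hTX d h)] at this
    have hTrev : ∀ d, T (G.rev d) ↔ T d := by
      intro d
      refine ⟨fun h => ?_, hTrev1 d⟩
      have := hTrev1 _ h
      rwa [G.rev_rev] at this
    let φ' : D → ℕ := fun d => if T d then φ d ^^^ q else φ d
    have hφT : ∀ d, T d → φ' d = φ d ^^^ q := fun d h => if_pos h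
    have hφN : ∀ d, ¬ T d → φ' d = φ d := fun d h => if_neg h
    refine ⟨φ', ⟨?_, ?_, ?_⟩, ?_⟩
    · intro d hd
      obtain ⟨r1, r2⟩ := hφ.rng d hd
      by_cases h : T d
      · rw [hφT d h]
        obtain ⟨a, b, _, _⟩ := xor_rng r1 r2 q1 q2 (hTX d h).2
        exact ⟨a, b⟩
      · rw [hφN d h]; exact ⟨r1, r2⟩
    · intro d
      by_cases h : T d
      · rw [hφT d h, hφT _ ((hTrev d).2 h), hφ.sym]
      · rw [hφN d h, hφN _ (fun h' => h ((hTrev d).1 h')), hφ.sym]
    · intro d d' hv hs hne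
      have hv' : ¬ G.Vx k c (G.src d') := by rw [← hs]; exact hv
      have hon : ¬ G.On k c d := fun h => hv (On.vx G hc h)
      have hon' : ¬ G.On k c d' := fun h => hv' (On.vx G hc h)
      have hdd := hφ.prop d d' hv hs hne
      have key : ∀ x y, ¬ G.Vx k c (G.src x) → ¬ G.On k c x → ¬ G.On k c y →
          G.src x = G.src y → x ≠ y → X y → ¬ X x → φ' x ≠ φ' y := by
        intro x y _ hx hy _ hxy hXy hXx
        have hq : φ x = q := by
          by_contra h; exact hXx ⟨hx, h⟩
        rw [hφN x (fun h => hXx (hTX x h)), hq]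
        obtain ⟨r1, r2⟩ := hφ.rng y hy
        by_cases h : T y
        · rw [hφT y h]
          exact (xor_rng r1 r2 q1 q2 hXy.2).2.2.1.symm
        · rw [hφN y h]; exact hXy.2.symm
      by_cases h1 : X d
      · by_cases h2 : X d'
        · have e1 : o d = d' := ((ho d h1 hv).2.2.2 d' (Ne.symm hne) hs.symm h2.2).symm
          have e2 : o d' = d := ((ho d' h2 hv').2.2.2 d hne hs h1.2).symm
          have hT : T d ↔ T d' := by
            constructor
            · intro h
              have := hTB d h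
              rwa [hBX d h1 hv, e1] at this
            · intro h
              have := hTB d' h
              rwa [hBX d' h2 hv', e2] at this
          by_cases h : T d
          · rw [hφT d h, hφT d' (hT.1 h)]
            intro he
            apply hdd
            have := congrArg (fun z => z ^^^ q) he
            simpa [Nat.xor_assoc] using this
          · rw [hφN d h, hφN d' (fun h' => h (hT.2 h'))]
            exact hdd
        · exact (key d' d hv' hon' hon hs.symm (Ne.symm hne) h1 h2).symm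
      · by_cases h2 : X d'
        · exact key d d' hv hon hon' hs hne h2 h1
        · exfalso
          apply hdd
          have a1 : φ d = q := by by_contra h; exact h1 ⟨hon, h⟩
          have a2 : φ d' = q := by by_contra h; exact h2 ⟨hon', h⟩
          rw [a1, a2]
    · intro i hi
      have hTY : T (l i) ↔ Y i = true := by
        constructor
        · rintro ⟨j, hj, hs⟩
          obtain ⟨hjk, hjq⟩ := hY1 j hj
          obtain ⟨a, _, _, _, g, _⟩ := hμ j hjk hjq
          rcases g _ hs (hBV _ (hVl i hi)) with h | h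
          · rw [Legs.inj G hc hl hi hjk h]; exact hj
          · rw [Legs.inj G hc hl hi a h]; exact hY2 j hj
        · intro h
          exact ⟨i, h, Equiv.Perm.SameCycle.refl _ _⟩
      by_cases h : T (l i)
      · rw [hφT _ h, if_pos (hTY.1 h)]
      · rw [hφN _ h, if_neg (fun h' => h (hTY.2 h'))]

/-! ### Lists of values -/

/-- the list `g n, ..., g (n + m - 1)` -/
def lst (g : ℕ → ℕ) : ℕ → ℕ → List ℕ
  | _, 0 => []
  | n, m + 1 => g n :: lst g (n + 1) m

theorem lst_length (g : ℕ → ℕ) : ∀ m n, (lst g n m).length = m := by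
  intro m
  induction m with
  | zero => intro n; rfl
  | succ m ih => intro n; simp [lst, ih]

theorem mem_lst (g : ℕ → ℕ) : ∀ m n x, x ∈ lst g n m → ∃ i, n ≤ i ∧ i < n + m ∧ x = g i := by
  intro m
  induction m with
  | zero => intro n x h; simp [lst] at h
  | succ m ih =>
    intro n x h
    simp only [lst] at h
    rcases List.mem_cons.1 h with h | h
    · exact ⟨n, le_refl _, by omega, h⟩
    · obtain ⟨i, a, b, e⟩ := ih (n + 1) x h
      exact ⟨i, by omega, by omega, e⟩

theorem tog_lst (q : ℕ) (Y : ℕ → Bool) (g : ℕ → ℕ) : ∀ m n,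
    tog q Y n (lst g n m) = lst (fun i => if Y i then g i ^^^ q else g i) n m := by
  intro m
  induction m with
  | zero => intro n; rfl
  | succ m ih => intro n; simp only [lst, tog, ih]

theorem lst_congr (g h : ℕ → ℕ) : ∀ m n, (∀ i, n ≤ i → i < n + m → g i = h i) →
    lst g n m = lst h n m := by
  intro m
  induction m with
  | zero => intro n _; rfl
  | succ m ih =>
    intro n hgh
    simp only [lst]
    rw [hgh n (le_refl _) (by omega), ih (n + 1) fun i a b => hgh i (by omega) (by omega)]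

theorem mem_posn_lst (q : ℕ) (g : ℕ → ℕ) : ∀ m n i,
    i ∈ posn q n (lst g n m) ↔ n ≤ i ∧ i < n + m ∧ g i ≠ q := by
  intro m
  induction m with
  | zero => intro n i; simp [lst, posn]; omega
  | succ m ih =>
    intro n i
    simp only [lst, posn]
    split
    · rename_i h
      rw [ih]
      constructor
      · rintro ⟨a, b, e⟩; exact ⟨by omega, by omega, e⟩
      · rintro ⟨a, b, e⟩
        refine ⟨?_, by omega, e⟩
        by_contra hlt
        have : i = n := by omega
        rw [this] at e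
        exact e h
    · rename_i h
      rw [List.mem_cons, ih]
      constructor
      · rintro (rfl | ⟨a, b, e⟩)
        · exact ⟨le_refl _, by omega, h⟩
        · exact ⟨by omega, by omega, e⟩
      · rintro ⟨a, b, e⟩
        by_cases hin : i = n
        · exact Or.inl hin
        · exact Or.inr ⟨by omega, by omega, e⟩

theorem pre_lst (g Q : ℕ → ℕ) : ∀ m n x, Q n = x ^^^ g n →
    (∀ i, n ≤ i → Q (i + 1) = Q i ^^^ g (i + 1)) → pre x (lst g n m) = lst Q n m := by
  intro m
  induction m with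
  | zero => intro n x _ _; rfl
  | succ m ih =>
    intro n x h1 h2
    simp only [lst, pre]
    rw [← h1, ih (n + 1) (Q n) (h2 n (le_refl _)) fun i hi => h2 i (by omega)]

theorem tot_lst (g Q : ℕ → ℕ) : ∀ m n x, Q n = x ^^^ g n →
    (∀ i, n ≤ i → Q (i + 1) = Q i ^^^ g (i + 1)) → x ^^^ tot (lst g n (m + 1)) = Q (n + m) := by
  intro m
  induction m with
  | zero => intro n x h1 _; simp [lst, tot, h1]
  | succ m ih =>
    intro n x h1 h2
    have := ih (n + 1) (Q n) (h2 n (le_refl _)) fun i hi => h2 i (by omega)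
    have e : lst g n (m + 1 + 1) = g n :: lst g (n + 1) (m + 1) := rfl
    rw [e]
    simp only [tot]
    rw [← Nat.xor_assoc, ← h1, this]
    congr 1
    omega

theorem dif_lst (f f' : ℕ → ℕ) : ∀ m n, (∀ i, n ≤ i → i + 1 < n + m → f' (i + 1) = f i) →
    dif (f' n) (lst f n m) = lst (fun i => f' i ^^^ f i) n m := by
  intro m
  induction m with
  | zero => intro n _; rfl
  | succ m ih =>
    intro n h
    simp only [lst, dif]
    congr 1
    cases m with
    | zero => rfl
    | succ m =>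
      rw [← h n (le_refl _) (by omega)]
      exact ih (n + 1) fun i a b => h i (by omega) (by omega)

theorem cnt_lst_zero (Q : ℕ → ℕ) (v : ℕ) : ∀ m n, cnt v (lst Q n m) = 0 →
    ∀ j, n ≤ j → j < n + m → Q j ≠ v := by
  intro m
  induction m with
  | zero => intro n _ j a b; omega
  | succ m ih =>
    intro n h j a b
    simp only [lst, cnt] at h
    split at h
    · omega
    · rename_i hn
      by_cases hj : j = n
      · rw [hj]; exact hn
      · exact ih (n + 1) h j (by omega) (by omega)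

theorem cnt_lst_one (Q : ℕ → ℕ) (v : ℕ) : ∀ m n, cnt v (lst Q n m) = 1 →
    ∃ i, n ≤ i ∧ i < n + m ∧ Q i = v ∧ ∀ j, n ≤ j → j < n + m → Q j = v → j = i := by
  intro m
  induction m with
  | zero => intro n h; simp [lst, cnt] at h
  | succ m ih =>
    intro n h
    simp only [lst, cnt] at h
    split at h
    · rename_i hn
      refine ⟨n, le_refl _, by omega, hn, ?_⟩
      intro j a b e
      by_contra hj
      exact cnt_lst_zero Q v m (n + 1) (by omega) j (by omega) (by omega) e
    · rename_i hn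
      obtain ⟨i, a, b, e, f⟩ := ih (n + 1) h
      refine ⟨i, by omega, by omega, e, ?_⟩
      intro j a' b' e'
      by_cases hj : j = n
      · rw [hj] at e'; exact absurd e' hn
      · exact f j (by omega) (by omega) e'

theorem lst_mem_walks (f : ℕ → ℕ) : ∀ m n, (∀ i, n ≤ i → i < n + m → 1 ≤ f i ∧ f i ≤ 3) →
    (∀ i, n ≤ i → i + 1 < n + m → f i ≠ f (i + 1)) → lst f n m ∈ walks m := by
  intro m
  induction m with
  | zero => intro n _ _; simp [lst, walks]
  | succ m ih =>
    intro n h1 h2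
    have h3 := ih (n + 1) (fun i a b => h1 i (by omega) (by omega))
      fun i a b => h2 i (by omega) (by omega)
    simp only [walks, List.mem_flatMap, lst]
    refine ⟨lst f (n + 1) m, h3, ?_⟩
    rw [List.mem_map]
    refine ⟨f n, ?_, rfl⟩
    rw [List.mem_filter]
    obtain ⟨a, b⟩ := h1 n (le_refl _) (by omega)
    constructor
    · simp only [List.mem_cons, List.not_mem_nil, or_false]; omega
    · cases m with
      | zero => simp [lst]; omega
      | succ m =>
        have := h2 n (le_refl _) (by omega)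
        simpa [lst] using this

theorem headD_lst (f : ℕ → ℕ) (m n : ℕ) : (lst f n (m + 1)).headD 0 = f n := rfl

theorem getLastD_lst (f : ℕ → ℕ) : ∀ m n x, (lst f n (m + 1)).getLastD x = f (n + m) := by
  intro m
  induction m with
  | zero => intro n x; rfl
  | succ m ih =>
    intro n x
    have e : lst f n (m + 1 + 1) = f n :: lst f (n + 1) (m + 1) := rfl
    rw [e, List.getLastD_cons, ih (n + 1) (f n)]
    congr 1
    omega

/-! ### Boundary colourings -/

/-- the boundary colourings (colours of the legs) of the colourings outside the cycle -/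
def Bd (k : ℕ) (c l : ℕ → D) (d : List ℕ) : Prop :=
  ∃ φ, State G k c φ ∧ d = lst (fun i => φ (l i)) 0 k

theorem Bd.kc [Finite D] {k : ℕ} {c l : ℕ → D} (hc : G.IsCycle k c) (hl : Legs G k c l) :
    KC k (Bd G k c l) := by
  refine ⟨?_, ?_, ?_⟩
  · rintro d ⟨φ, _, rfl⟩
    exact lst_length _ _ _
  · rintro d ⟨φ, hφ, rfl⟩ x hx
    obtain ⟨i, _, hi, rfl⟩ := mem_lst _ _ _ _ hx
    exact hφ.rng _ (Legs.not_on G hc hl (by omega))
  · rintro d ⟨φ, hφ, rfl⟩ q q1 q2
    obtain ⟨μ, h1, h2⟩ := kempe_step G hc hl hφ q1 q2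
    refine ⟨μ, ?_, ?_⟩
    · intro i hi
      rw [mem_posn_lst] at hi ⊢
      obtain ⟨a, b, e, f⟩ := h1 i (by omega) hi.2.2
      exact ⟨⟨Nat.zero_le _, by omega, b⟩, e, f⟩
    · intro Y hY1 hY2
      obtain ⟨φ', hφ', h3⟩ := h2 Y
        (fun i hi => by
          have := hY1 i hi
          rw [mem_posn_lst] at this
          exact ⟨by omega, this.2.2⟩) hY2
      refine ⟨φ', hφ', ?_⟩
      rw [tog_lst]
      apply lst_congr
      intro i _ hi
      exact (h3 i (by omega)).symm

theorem xor_three {a b m : ℕ} (a1 : 1 ≤ a) (a3 : a ≤ 3) (b1 : 1 ≤ b) (b3 : b ≤ 3) (m1 : 1 ≤ m)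
    (m3 : m ≤ 3) (h1 : a ≠ b) (h2 : a ≠ m) (h3 : b ≠ m) : a ^^^ b = m := by
  interval_cases a <;> interval_cases b <;> interval_cases m <;>
    first | exact absurd rfl h1 | exact absurd rfl h2 | exact absurd rfl h3 | decide

theorem xor_lt4 {a b : ℕ} (ha : a < 4) (hb : b < 4) : a ^^^ b < 4 := by
  interval_cases a <;> interval_cases b <;> decide

/-- the colour as an element of `Fin 3` -/
def fc (n : ℕ) : Fin 3 := ⟨(n - 1) % 3, Nat.mod_lt _ (by norm_num)⟩

theorem fc_ne {a b : ℕ} (a1 : 1 ≤ a) (a3 : a ≤ 3) (b1 : 1 ≤ b) (b3 : b ≤ 3) (h : a ≠ b) :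
    fc a ≠ fc b := by
  interval_cases a <;> interval_cases b <;> first | exact absurd rfl h | decide

theorem removable_of_good [Finite D] {k : ℕ} {c l : ℕ → D} (hk : 2 ≤ k) (hc : G.IsCycle k c)
    (hl : Legs G k c l) {φ : D → ℕ} (hφ : State G k c φ)
    (ht : tot (lst (fun i => φ (l i)) 0 k) = 0)
    (hg : good (lst (fun i => φ (l i)) 0 k) = true) : ∃ i < k, G.Removable (c i) := by
  classical
  obtain ⟨P, hP0, hPs⟩ : ∃ P : ℕ → ℕ, P 0 = φ (l 0) ∧ ∀ i, P (i + 1) = P i ^^^ φ (l (i + 1)) :=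
    ⟨fun i => Nat.rec (φ (l 0)) (fun j r => r ^^^ φ (l (j + 1))) i, rfl, fun i => rfl⟩
  have hpre : pre 0 (lst (fun i => φ (l i)) 0 k) = lst P 0 k :=
    pre_lst _ P k 0 0 (by rw [Nat.zero_xor, hP0]) fun i _ => hPs i
  have hlast : P (k - 1) = 0 := by
    obtain ⟨m, rfl⟩ : ∃ m, k = m + 1 := ⟨k - 1, by omega⟩
    have := tot_lst (fun i => φ (l i)) P m 0 0 (by rw [Nat.zero_xor, hP0]) fun i _ => hPs i
    rw [ht] at this
    simpa using this.symm
  have hrel : ∀ i < k, P i = P ((i + (k - 1)) % k) ^^^ φ (l i) := by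
    intro i hi
    rcases Nat.eq_zero_or_pos i with rfl | hpos
    · rw [Nat.zero_add, Nat.mod_eq_of_lt (by omega), hlast, Nat.zero_xor, hP0]
    · obtain ⟨j, rfl⟩ : ∃ j, i = j + 1 := ⟨i - 1, by omega⟩
      have : (j + 1 + (k - 1)) % k = j := by
        have e : j + 1 + (k - 1) = j + k := by omega
        rw [e, Nat.add_mod_right, Nat.mod_eq_of_lt (by omega)]
      rw [this, hPs]
  have hm : ∀ i < k, 1 ≤ φ (l i) ∧ φ (l i) ≤ 3 := fun i hi => hφ.rng _ (Legs.not_on G hc hl hi)
  have hP4 : ∀ i < k, P i < 4 := by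
    intro i
    induction i with
    | zero => intro hi; rw [hP0]; have := hm 0 hi; omega
    | succ i ih =>
      intro hi
      rw [hPs]
      exact xor_lt4 (ih (by omega)) (by have := hm (i + 1) hi; omega)
  obtain ⟨v, hv4, i0, hi0, hPi0, huniq⟩ : ∃ v, v < 4 ∧ ∃ i0, i0 < k ∧ P i0 = v ∧
      ∀ j, j < k → P j = v → j = i0 := by
    simp only [good, Bool.or_eq_true, beq_iff_eq] at hg
    rw [hpre] at hg
    have go : ∀ v, v < 4 → cnt v (lst P 0 k) = 1 → ∃ v, v < 4 ∧ ∃ i0, i0 < k ∧ P i0 = v ∧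
      ∀ j, j < k → P j = v → j = i0 := by
      intro v hv h
      obtain ⟨i, _, b, e, f⟩ := cnt_lst_one P v k 0 h
      exact ⟨v, hv, i, by omega, e, fun j hj hj' => f j (Nat.zero_le _) (by omega) hj'⟩
    rcases hg with h | h | h | h
    · exact go 0 (by norm_num) h
    · exact go 1 (by norm_num) h
    · exact go 2 (by norm_num) h
    · exact go 3 (by norm_num) h
  -- darts on the cycle
  have hcr : ∀ i < k, ∀ j < k, c i ≠ G.rev (c j) := by
    intro i hi j hj h
    have h1 : G.src (c i) = G.src (c ((j + 1) % k)) := by rw [h, hc.2.2.1 j hj]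
    have h2 := hc.2.1 i hi _ (Nat.mod_lt _ hc.1) h1
    rw [h2] at h
    exact hc.2.2.2 j hj h
  have hcc : ∀ i < k, ∀ j < k, c i = c j → i = j :=
    fun i hi j hj h => hc.2.1 i hi j hj (by rw [h])
  have hrr : ∀ i < k, ∀ j < k, G.rev (c i) = G.rev (c j) → i = j := by
    intro i hi j hj h
    apply hcc i hi j hj
    rw [← G.rev_rev (c i), h, G.rev_rev]
  have hind : ∀ d, ∃ i, G.On k c d → (i < k ∧ (d = c i ∨ d = G.rev (c i))) := by
    intro d
    by_cases h : G.On k c d
    · obtain ⟨i, hi, h'⟩ := h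
      exact ⟨i, fun _ => ⟨hi, h'⟩⟩
    · exact ⟨0, fun h' => absurd h' h⟩
  choose ind hind using hind
  let ψ : D → ℕ := fun d => if G.On k c d then v ^^^ P (ind d) else φ d
  have hψon : ∀ i < k, ∀ d, (d = c i ∨ d = G.rev (c i)) → ψ d = v ^^^ P i := by
    intro i hi d hd
    have hon : G.On k c d := ⟨i, hi, hd⟩
    have e : ψ d = v ^^^ P (ind d) := if_pos hon
    obtain ⟨a, b⟩ := hind d hon
    have : ind d = i := by
      rcases hd with hd | hd <;> rcases b with b | b
      · exact hcc _ a i hi (b ▸ hd)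
      · exact absurd (hd.symm.trans b) (hcr i hi _ a)
      · exact absurd (b.symm.trans hd) (hcr _ a i hi)
      · exact hrr _ a i hi (b ▸ hd)
    rw [e, this]
  have hψoff : ∀ d, ¬ G.On k c d → ψ d = φ d := fun d h => if_neg h
  have hψrev : ∀ d, ψ (G.rev d) = ψ d := by
    intro d
    by_cases h : G.On k c d
    · obtain ⟨i, hi, h'⟩ := h
      rw [hψon i hi d h']
      apply hψon i hi
      rcases h' with h' | h'
      · right; rw [h']
      · left; rw [h', G.rev_rev]
    · rw [hψoff d h, hψoff _ (fun h' => h ((On.rev_iff G).1 h')), hφ.sym]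
  have hψl : ∀ i < k, ψ (l i) = φ (l i) := fun i hi => hψoff _ (Legs.not_on G hc hl hi)
  have hstar : ∀ i < k, ψ (c i) = ψ (G.rev (c ((i + (k - 1)) % k))) ^^^ ψ (l i) := by
    intro i hi
    rw [hψon i hi _ (Or.inl rfl), hψon _ (pv_lt hc.1) _ (Or.inr rfl), hψl i hi, Nat.xor_assoc,
      ← hrel i hi]
  have hψ4 : ∀ i < k, v ^^^ P i < 4 := fun i hi => xor_lt4 hv4 (hP4 i hi)
  have hψ0 : ∀ i < k, i ≠ i0 → 1 ≤ v ^^^ P i ∧ v ^^^ P i ≤ 3 := by
    intro i hi hne
    have h1 := hψ4 i hi
    have h2 : v ^^^ P i ≠ 0 := by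
      intro h
      apply hne
      apply huniq i hi
      have := congrArg (fun z => v ^^^ z) h
      simpa [← Nat.xor_assoc] using this
    omega
  have hz : v ^^^ P i0 = 0 := by rw [hPi0]; exact Nat.xor_self v
  set i1 := (i0 + 1) % k with hi1
  have hi1k : i1 < k := Nat.mod_lt _ hc.1
  have hpv1 : (i1 + (k - 1)) % k = i0 := pv_of_succ hc.1 hi0
  have hsrc1 : G.src (G.rev (c i0)) = G.src (c i1) := hc.2.2.1 i0 hi0
  have hi01 : i1 ≠ i0 := by
    intro h
    by_cases h' : i0 + 1 < k
    · rw [hi1, Nat.mod_eq_of_lt h'] at h; omega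
    · have : i0 + 1 = k := by omega
      rw [hi1, this, Nat.mod_self] at h
      omega
  refine ⟨i0, hi0, ?_, fun d => fc (ψ d), ?_, ?_, ?_⟩
  · rw [hsrc1]
    intro h
    exact hi01 (hc.2.1 _ hi1k _ hi0 h)
  · intro d; simp only [hψrev]
  · intro d d' hne hs h0 h1
    rw [hsrc1] at h1
    by_cases hv : G.Vx k c (G.src d)
    · obtain ⟨i, hi, hsi⟩ := hv
      have hii0 : i ≠ i0 := by rintro rfl; exact h0 hsi
      have hii1 : i ≠ i1 := by rintro rfl; exact h1 hsi
      have hpi : (i + (k - 1)) % k ≠ i0 := by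
        intro h
        apply hii1
        rw [hi1, ← h, pv_succ hc.1 hi]
      have a := hψ0 i hi hii0
      have b := hψ0 _ (pv_lt hc.1) hpi
      rw [← hψon i hi _ (Or.inl rfl)] at a
      rw [← hψon _ (pv_lt hc.1) _ (Or.inr rfl)] at b
      have m := hm i hi
      rw [← hψl i hi] at m
      have st := hstar i hi
      have n1 : ψ (c i) ≠ ψ (G.rev (c ((i + (k - 1)) % k))) := by
        intro h
        rw [h] at st
        have := congrArg (fun z => ψ (G.rev (c ((i + (k - 1)) % k))) ^^^ z) st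
        simp only [Nat.xor_self, ← Nat.xor_assoc, Nat.zero_xor] at this
        omega
      have n2 : ψ (c i) ≠ ψ (l i) := by
        intro h
        rw [h] at st
        have := congrArg (fun z => z ^^^ ψ (l i)) st
        simp only [Nat.xor_self, Nat.xor_assoc, Nat.xor_zero] at this
        omega
      have n3 : ψ (G.rev (c ((i + (k - 1)) % k))) ≠ ψ (l i) := by
        intro h
        rw [h, Nat.xor_self] at st
        omega
      have hd := hl.all i hi d hsi
      have hd' := hl.all i hi d' (by rw [← hs, hsi])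
      rcases hd with rfl | rfl | rfl <;> rcases hd' with rfl | rfl | rfl
      · exact absurd rfl hne
      · exact fc_ne a.1 a.2 b.1 b.2 n1
      · exact fc_ne a.1 a.2 m.1 m.2 n2
      · exact fc_ne b.1 b.2 a.1 a.2 n1.symm
      · exact absurd rfl hne
      · exact fc_ne b.1 b.2 m.1 m.2 n3
      · exact fc_ne m.1 m.2 a.1 a.2 n2.symm
      · exact fc_ne m.1 m.2 b.1 b.2 n3.symm
      · exact absurd rfl hne
    · have o1 : ¬ G.On k c d := fun h => hv (On.vx G hc h)
      have o2 : ¬ G.On k c d' := fun h => hv (by rw [hs]; exact On.vx G hc h)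
      simp only [hψoff d o1, hψoff d' o2]
      exact fc_ne (hφ.rng d o1).1 (hφ.rng d o1).2 (hφ.rng d' o2).1 (hφ.rng d' o2).2
        (hφ.prop d d' hv hs hne)
  · have key0 : ∀ d, G.src d = G.src (c i0) → d ≠ c i0 → ψ d = ψ (l i0) := by
      intro d hd hne
      rcases hl.all i0 hi0 d hd with h | h | h
      · exact absurd h hne
      · have st := hstar i0 hi0
        rw [hψon i0 hi0 _ (Or.inl rfl), hz] at st
        rw [h]
        have := congrArg (fun z => z ^^^ ψ (l i0)) st
        simp only [Nat.xor_self, Nat.xor_assoc, Nat.xor_zero, Nat.zero_xor] at this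
        exact this.symm
      · rw [h]
    have key1 : ∀ d, G.src d = G.src (c i1) → d ≠ G.rev (c i0) → ψ d = ψ (l i1) := by
      intro d hd hne
      rcases hl.all i1 hi1k d hd with h | h | h
      · have st := hstar i1 hi1k
        rw [hpv1, hψon i0 hi0 (G.rev (c i0)) (Or.inr rfl), hz, Nat.zero_xor] at st
        rw [h, st]
      · rw [hpv1] at h
        exact absurd h hne
      · rw [h]
    rintro d d' hs (h | h) n1 n2 n3 n4
    · simp only [key0 d h n1, key0 d' (hs ▸ h) n3]
    · rw [hsrc1] at h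
      simp only [key1 d h n2, key1 d' (hs ▸ h) n4]

theorem exists_good [Finite D] {k : ℕ} {c : ℕ → D} (hc : G.IsCycle k c) {es : List ℕ}
    (hrun : run k es 0 = true) (hk2 : 2 ≤ k) (hk16 : k < 16)
    {col : D → Fin 3} (hcol : G.IsColouring col) : ∃ i < k, G.Removable (c i) := by
  obtain ⟨l, hl⟩ := exists_legs G hc
  let φ : D → ℕ := fun d => (col d : ℕ) + 1
  have hφr : ∀ d, 1 ≤ φ d ∧ φ d ≤ 3 := fun d => ⟨by simp [φ], by
    have := (col d).isLt
    simp only [φ]; omega⟩
  have hφp : ∀ d d', d ≠ d' → G.src d = G.src d' → φ d ≠ φ d' := by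
    intro d d' h1 h2 h3
    apply hcol.2 d d' h1 h2
    apply Fin.ext
    simp only [φ] at h3
    omega
  have hφ : State G k c φ := ⟨fun d _ => hφr d, fun d => by simp only [φ, hcol.1],
    fun d d' _ h1 h2 => hφp d d' h2 h1⟩
  have hsym : ∀ d, φ (G.rev d) = φ d := hφ.sym
  have hpc : ∀ i < k, G.src (G.rev (c ((i + (k - 1)) % k))) = G.src (c i) := by
    intro i hi
    rw [hc.2.2.1 _ (pv_lt hc.1), pv_succ hc.1 hi]
  have hne : ∀ i < k, c i ≠ G.rev (c ((i + (k - 1)) % k)) := by
    intro i hi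
    have := hc.2.2.2 _ (pv_lt (i := i) hc.1)
    rwa [pv_succ hc.1 hi] at this
  have hadj : ∀ i < k, φ (c ((i + (k - 1)) % k)) ≠ φ (c i) := by
    intro i hi h
    apply hφp (c i) (G.rev (c ((i + (k - 1)) % k))) (hne i hi) (hpc i hi).symm
    rw [hsym, h]
  have hleg : ∀ i < k, φ (l i) = φ (c ((i + (k - 1)) % k)) ^^^ φ (c i) := by
    intro i hi
    symm
    apply xor_three (hφr _).1 (hφr _).2 (hφr _).1 (hφr _).2 (hφr _).1 (hφr _).2 (hadj i hi)
    · rw [← hsym]
      exact hφp _ _ (hl.ne2 i hi).symm (by rw [hpc i hi, hl.src i hi])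
    · exact hφp _ _ (hl.ne1 i hi).symm (hl.src i hi).symm
  obtain ⟨m, rfl⟩ : ∃ m, k = m + 1 := ⟨k - 1, by omega⟩
  have hpv0 : (0 + (m + 1 - 1)) % (m + 1) = m := by
    rw [Nat.zero_add, Nat.add_sub_cancel, Nat.mod_eq_of_lt (by omega)]
  have hpvs : ∀ i, i + 1 < m + 1 → (i + 1 + (m + 1 - 1)) % (m + 1) = i := by
    intro i hi
    have e : i + 1 + (m + 1 - 1) = i + (m + 1) := by omega
    rw [e, Nat.add_mod_right, Nat.mod_eq_of_lt (by omega)]
  let s : List ℕ := lst (fun i => φ (c i)) 0 (m + 1)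
  have hlast : s.getLastD 0 = φ (c m) := by
    have := getLastD_lst (fun i => φ (c i)) m 0 0
    simpa [s] using this
  have hdif : dif (s.getLastD 0) s = lst (fun i => φ (l i)) 0 (m + 1) := by
    rw [hlast]
    have := dif_lst (fun i => φ (c i)) (fun i => φ (c ((i + (m + 1 - 1)) % (m + 1)))) (m + 1) 0
      (fun i _ hi => by simp only [hpvs i (by omega)])
    simp only [hpv0] at this
    rw [this]
    apply lst_congr
    intro i _ hi
    exact (hleg i (by omega)).symm
  have hw : s ∈ walks (m + 1) := by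
    apply lst_mem_walks
    · intro i _ _; exact hφr _
    · intro i _ hi
      have := hadj (i + 1) (by omega)
      rw [hpvs i (by omega)] at this
      exact this
  have hhl : s.headD 0 ≠ s.getLastD 0 := by
    rw [hlast]
    have := hadj 0 (by omega)
    rw [hpv0] at this
    exact this.symm
  have htot : tot (dif (s.getLastD 0) s) = 0 := by
    have gen : ∀ (t : List ℕ) (p : ℕ), tot (dif p t) = p ^^^ t.getLastD p := by
      intro t
      induction t with
      | nil => intro p; simp [dif, tot]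
      | cons x t ih =>
        intro p
        simp only [dif, tot]
        rw [ih x, List.getLastD_cons, Nat.xor_assoc, ← Nat.xor_assoc x x, Nat.xor_self,
          Nat.zero_xor]
    rw [gen]
    have e1 := getLastD_lst (fun i => φ (c i)) m 0 (s.getLastD 0)
    have e2 : s.getLastD (s.getLastD 0) = s.getLastD 0 := by
      rw [hlast]
      simpa [s, hlast] using getLastD_lst (fun i => φ (c i)) m 0 (φ (c m))
    rw [e2, Nat.xor_self]
  obtain ⟨d, ⟨φ', hφ', rfl⟩, h2, h3⟩ := kc_good (m + 1) (by omega) hk16 es hrun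
    (Bd G (m + 1) c l) (Bd.kc G hc hl) s hw hhl ⟨φ, hφ, hdif⟩ htot
  exact removable_of_good G hk2 hc hl hφ' h2 h3

/-- **Main theorem.** Let `G` be a finite 3-edge-colourable cubic graph. Then every cycle of `G` of
length at most `10` contains an edge `e` such that the cubic graph homeomorphic to `G - e` is
3-edge-colourable. -/
theorem result [Finite D] (hG : ∃ col, G.IsColouring col) (k : ℕ) (hk : k ≤ 10) (c : ℕ → D)
    (hc : G.IsCycle k c) : ∃ i < k, G.Removable (c i) := by
  obtain ⟨col, hcol⟩ := hG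
  have hk2 : 2 ≤ k := by
    by_contra h
    have h0 := hc.1
    obtain rfl : k = 1 := by omega
    have h1 := hc.2.2.1 0 (by norm_num)
    simp only [Nat.mod_one] at h1
    exact hcol.2 _ _ (G.rev_ne (c 0)) h1 (hcol.1 (c 0))
  have hk16 : k < 16 := by omega
  interval_cases k
  · exact exists_good G hc chk2 hk2 hk16 hcol
  · exact exists_good G hc chk3 hk2 hk16 hcol
  · exact exists_good G hc chk4 hk2 hk16 hcol
  · exact exists_good G hc chk5 hk2 hk16 hcol
  · exact exists_good G hc chk6 hk2 hk16 hcol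
  · exact exists_good G hc chk7 hk2 hk16 hcol
  · exact exists_good G hc chk8 hk2 hk16 hcol
  · exact exists_good G hc chk9 hk2 hk16 hcol
  · exact exists_good G hc chk10 hk2 hk16 hcol

end Pool.Agent.Results.MP_bcbcf8_co.GirthTen
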